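import Mathlib

/-! Splitting off the first coordinate of an i.i.d. sequence indexed by `ℕ`. -/

open MeasureTheory ProbabilityTheory

namespace Pool.Agent.Lib.MP_65c995_pr

/-- Prepend a letter to a sequence. -/
def consSeq {E : Type*} (p : E × (ℕ → E)) : ℕ → E
  | 0 => p.1
  | n + 1 => p.2 n

/-- Drop the first letter of a sequence. -/
def tailSeq {E : Type*} (v : ℕ → E) : ℕ → E := fun n => v (n + 1)

lemma consSeq_head_tail {E : Type*} (v : ℕ → E) : consSeq (v 0, tailSeq v) = v := by
  funext n
  cases n with
  | zero => rfl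
  | succ n => rfl

lemma measurable_consSeq {E : Type*} [MeasurableSpace E] :
    Measurable (consSeq : E × (ℕ → E) → (ℕ → E)) := by
  rw [measurable_pi_iff]
  intro n
  cases n with
  | zero => exact measurable_fst
  | succ n => exact (measurable_pi_apply n).comp measurable_snd

lemma measurable_tailSeq {E : Type*} [MeasurableSpace E] :
    Measurable (tailSeq : (ℕ → E) → (ℕ → E)) := by
  rw [measurable_pi_iff]
  intro n
  exact measurable_pi_apply (n + 1)

/-- The i.i.d. law on sequences. -/
noncomputable def iid {E : Type*} [MeasurableSpace E] (ν : Measure E) : Measure (ℕ → E) :=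
  Measure.infinitePi (fun _ : ℕ => ν)

instance {E : Type*} [MeasurableSpace E] (ν : Measure E) [IsProbabilityMeasure ν] :
    IsProbabilityMeasure (iid ν) := by
  unfold iid; infer_instance

lemma map_consSeq {E : Type*} [MeasurableSpace E] (ν : Measure E) [IsProbabilityMeasure ν] :
    (ν.prod (iid ν)).map consSeq = iid ν := by
  unfold iid
  apply Measure.eq_infinitePi
  intro s t ht
  rw [Measure.map_apply measurable_consSeq]
  swap
  · exact MeasurableSet.pi s.countable_toSet (fun i _ => ht i)
  set s' : Finset ℕ := s.preimage Nat.succ (Nat.succ_injective.injOn) with hs'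
  have hpre : consSeq ⁻¹' ((s : Set ℕ).pi t) =
      (if 0 ∈ s then t 0 else Set.univ) ×ˢ ((s' : Set ℕ).pi (fun n => t (n + 1))) := by
    ext ⟨a, v⟩
    simp only [Set.mem_preimage, Set.mem_pi, Finset.mem_coe, Set.mem_prod, hs',
      Finset.mem_preimage, Nat.succ_eq_add_one]
    constructor
    · intro h
      refine ⟨?_, ?_⟩
      · split_ifs with h0
        · exact h 0 h0
        · trivial
      · intro n hn
        exact h (n + 1) hn
    · rintro ⟨h1, h2⟩ n hn
      cases n with
      | zero => rw [if_pos hn] at h1; exact h1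
      | succ n => exact h2 n hn
  rw [hpre, Measure.prod_prod, Measure.infinitePi_pi (fun _ : ℕ => ν) (fun i _ => ht (i + 1))]
  by_cases h0 : 0 ∈ s
  · rw [if_pos h0]
    have : s = insert 0 (s'.map ⟨Nat.succ, Nat.succ_injective⟩) := by
      ext n
      cases n with
      | zero => simp [h0]
      | succ n => simp [hs']
    conv_rhs => rw [this]
    rw [Finset.prod_insert (by simp), Finset.prod_map]
    rfl
  · rw [if_neg h0, measure_univ, one_mul]
    have : s = (s'.map ⟨Nat.succ, Nat.succ_injective⟩) := by
      ext n
      cases n with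
      | zero => simp [h0]
      | succ n => simp [hs']
    conv_rhs => rw [this]
    rw [Finset.prod_map]
    rfl

lemma map_head_tail {E : Type*} [MeasurableSpace E] (ν : Measure E) [IsProbabilityMeasure ν] :
    (iid ν).map (fun v => (v 0, tailSeq v)) = ν.prod (iid ν) := by
  conv_lhs => rw [← map_consSeq ν]
  rw [Measure.map_map]
  · have : ((fun v : ℕ → E => (v 0, tailSeq v)) ∘ consSeq) = id := by
      funext ⟨a, v⟩
      rfl
    rw [this, Measure.map_id]
  · exact (measurable_pi_apply 0).prodMk measurable_tailSeq
  · exact measurable_consSeq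

lemma lintegral_iid_split {E : Type*} [MeasurableSpace E] (ν : Measure E)
    [IsProbabilityMeasure ν] (f : E × (ℕ → E) → ENNReal) (hf : Measurable f) :
    ∫⁻ v, f (v 0, tailSeq v) ∂(iid ν) = ∫⁻ a, ∫⁻ w, f (a, w) ∂(iid ν) ∂ν := by
  have h1 : Measurable (fun v : ℕ → E => (v 0, tailSeq v)) :=
    (measurable_pi_apply 0).prodMk measurable_tailSeq
  rw [← lintegral_map (μ := iid ν) (f := f) (g := fun v => (v 0, tailSeq v)) hf h1,
    map_head_tail, lintegral_prod _ hf.aemeasurable]

end Pool.Agent.Lib.MP_65c995_pr
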