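import Mathlib
import Pool.Agent.Lib.MP_65c995_pr.Noise

/-! The two-sided stationary Markov chain with a given kernel and reversed kernel. -/

open MeasureTheory ProbabilityTheory

namespace Pool.Agent.Lib.MP_65c995_pr

variable {S : Type} {E : Type}

/-- One-sided chain driven by a noise sequence. -/
def chain (F : S → E → S) (x : S) (u : ℕ → E) : ℕ → S
  | 0 => x
  | n + 1 => F (chain F x u n) (u n)

lemma chain_succ_eq (F : S → E → S) (x : S) (u : ℕ → E) (n : ℕ) :
    chain F x u (n + 1) = chain F (F x (u 0)) (tailSeq u) n := by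
  induction n with
  | zero => rfl
  | succ n ih =>
    change F (chain F x u (n + 1)) (u (n + 1)) = F (chain F (F x (u 0)) (tailSeq u) n) (u (n + 1))
    rw [ih]

lemma measurable_chain [MeasurableSpace S] [MeasurableSpace E] (F : S → E → S)
    (hF : Measurable (Function.uncurry F)) (n : ℕ) :
    Measurable (fun p : S × (ℕ → E) => chain F p.1 p.2 n) := by
  induction n with
  | zero => exact measurable_fst
  | succ n ih =>
    exact hF.comp (ih.prodMk ((measurable_pi_apply n).comp measurable_snd))

/-- Glue a forward chain from `p` and a backward chain from `q`. -/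
def glue (F G : S → E → S) (w : (S × S) × ((ℕ → E) × (ℕ → E))) : ℤ → S
  | Int.ofNat n => chain F w.1.1 w.2.1 n
  | Int.negSucc n => chain G w.1.2 w.2.2 n

lemma measurable_glue [MeasurableSpace S] [MeasurableSpace E] (F G : S → E → S)
    (hF : Measurable (Function.uncurry F)) (hG : Measurable (Function.uncurry G)) :
    Measurable (glue F G) := by
  rw [measurable_pi_iff]
  intro i
  cases i with
  | ofNat n =>
    exact (measurable_chain F hF n).comp
      ((measurable_fst.comp measurable_fst).prodMk (measurable_fst.comp measurable_snd))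
  | negSucc n =>
    exact (measurable_chain G hG n).comp
      ((measurable_snd.comp measurable_fst).prodMk (measurable_snd.comp measurable_snd))

/-- The sample space: a starting point, the backward noise, and the forward noise. -/
abbrev Om (S E : Type) : Type := (S × (ℕ → E)) × (ℕ → E)

/-- First presentation of the chain. -/
def W2 (G : S → E → S) (ω : Om S E) : (S × S) × ((ℕ → E) × (ℕ → E)) :=
  ((ω.1.1, G ω.1.1 (ω.1.2 0)), (ω.2, tailSeq ω.1.2))

/-- Second presentation of the chain, shifted by one. -/
def W1 (F : S → E → S) (ω : Om S E) : (S × S) × ((ℕ → E) × (ℕ → E)) :=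
  ((F ω.1.1 (ω.2 0), ω.1.1), (tailSeq ω.2, ω.1.2))

/-- The two-sided process. -/
def proc (F G : S → E → S) (i : ℤ) (ω : Om S E) : S := glue F G (W2 G ω) i

lemma proc_zero (F G : S → E → S) (ω : Om S E) : proc F G 0 ω = ω.1.1 := rfl

lemma proc_one (F G : S → E → S) (ω : Om S E) : proc F G 1 ω = F ω.1.1 (ω.2 0) := rfl

lemma proc_two (F G : S → E → S) (ω : Om S E) :
    proc F G 2 ω = F (F ω.1.1 (ω.2 0)) (ω.2 1) := rfl

lemma proc_add_one (F G : S → E → S) (i : ℤ) (ω : Om S E) :
    proc F G (i + 1) ω = glue F G (W1 F ω) i := by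
  cases i with
  | ofNat n =>
    change chain F ω.1.1 ω.2 (n + 1) = chain F (F ω.1.1 (ω.2 0)) (tailSeq ω.2) n
    exact chain_succ_eq F _ _ n
  | negSucc n =>
    cases n with
    | zero => rfl
    | succ n =>
      have h : (Int.negSucc (n + 1) + 1 : ℤ) = Int.negSucc n := rfl
      rw [h]
      change chain G (G ω.1.1 (ω.1.2 0)) (tailSeq ω.1.2) n = chain G ω.1.1 ω.1.2 (n + 1)
      exact (chain_succ_eq G _ _ n).symm

lemma measurable_W2 [MeasurableSpace S] [MeasurableSpace E] (G : S → E → S)
    (hG : Measurable (Function.uncurry G)) : Measurable (W2 G : Om S E → _) := by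
  have h1 : Measurable (fun ω : Om S E => ω.1.1) := measurable_fst.comp measurable_fst
  have h2 : Measurable (fun ω : Om S E => ω.1.2) := measurable_snd.comp measurable_fst
  have h3 : Measurable (fun ω : Om S E => ω.2) := measurable_snd
  exact (h1.prodMk (hG.comp (h1.prodMk ((measurable_pi_apply 0).comp h2)))).prodMk
    (h3.prodMk (measurable_tailSeq.comp h2))

lemma measurable_W1 [MeasurableSpace S] [MeasurableSpace E] (F : S → E → S)
    (hF : Measurable (Function.uncurry F)) : Measurable (W1 F : Om S E → _) := by
  have h1 : Measurable (fun ω : Om S E => ω.1.1) := measurable_fst.comp measurable_fst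
  have h2 : Measurable (fun ω : Om S E => ω.1.2) := measurable_snd.comp measurable_fst
  have h3 : Measurable (fun ω : Om S E => ω.2) := measurable_snd
  exact ((hF.comp (h1.prodMk ((measurable_pi_apply 0).comp h3))).prodMk h1).prodMk
    ((measurable_tailSeq.comp h3).prodMk h2)

lemma measurable_proc [MeasurableSpace S] [MeasurableSpace E] (F G : S → E → S)
    (hF : Measurable (Function.uncurry F)) (hG : Measurable (Function.uncurry G)) (i : ℤ) :
    Measurable (proc F G i) :=
  (measurable_pi_apply i).comp ((measurable_glue F G hF hG).comp (measurable_W2 G hG))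

section law

variable [MeasurableSpace S] [MeasurableSpace E]

/-- The law on the sample space. -/
noncomputable def omLaw (π : Measure S) (ν : Measure E) : Measure (Om S E) :=
  (π.prod (iid ν)).prod (iid ν)

instance (π : Measure S) (ν : Measure E) [IsProbabilityMeasure π] [IsProbabilityMeasure ν] :
    IsProbabilityMeasure (omLaw π ν) := by
  unfold omLaw; infer_instance

lemma map_W2 (π : Measure S) [IsProbabilityMeasure π] (ν : Measure E) [IsProbabilityMeasure ν]
    (κ' : Kernel S S) [IsMarkovKernel κ'] (G : S → E → S)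
    (hG : Measurable (Function.uncurry G)) (hGκ : ∀ a, ν.map (G a) = κ' a) :
    (omLaw π ν).map (W2 G) = (π ⊗ₘ κ').prod ((iid ν).prod (iid ν)) := by
  have hW := measurable_W2 (S := S) (E := E) G hG
  refine Measure.ext_of_lintegral _ ?_
  intro f hf
  rw [lintegral_map hf hW]
  unfold omLaw
  have hfW : Measurable (fun ω : Om S E => f (W2 G ω)) := hf.comp hW
  rw [lintegral_prod _ hfW.aemeasurable]
  rw [lintegral_prod _ hf.aemeasurable]
  rw [Measure.lintegral_compProd]
  swap
  · exact Measurable.lintegral_prod_right' hf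
  rw [lintegral_prod _ (Measurable.lintegral_prod_right' hfW).aemeasurable]
  refine lintegral_congr fun x => ?_
  -- goal: ∫⁻ v, ∫⁻ u, f (W2 G ((x,v),u)) = ∫⁻ y ∂κ' x, ∫⁻ z, f ((x,y),z)
  have hx : Measurable (fun e : E => G x e) := hG.comp (measurable_const.prodMk measurable_id)
  rw [← hGκ x, lintegral_map (by
    have := Measurable.lintegral_prod_right' (ν := (iid ν).prod (iid ν)) hf
    exact this.comp (measurable_const.prodMk measurable_id)) hx]
  have key : ∀ v : ℕ → E, ∫⁻ u, f (W2 G ((x, v), u)) ∂(iid ν) =
      (fun p : E × (ℕ → E) => ∫⁻ u, f ((x, G x p.1), (u, p.2)) ∂(iid ν)) (v 0, tailSeq v) := by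
    intro v; rfl
  simp_rw [key]
  have hmeas : Measurable (fun q : (E × (ℕ → E)) × (ℕ → E) => f ((x, G x q.1.1), (q.2, q.1.2))) := by
    apply hf.comp
    exact (measurable_const.prodMk (hx.comp (measurable_fst.comp measurable_fst))).prodMk
      (measurable_snd.prodMk (measurable_snd.comp measurable_fst))
  rw [lintegral_iid_split ν (fun p : E × (ℕ → E) => ∫⁻ u, f ((x, G x p.1), (u, p.2)) ∂(iid ν))
    (Measurable.lintegral_prod_right' hmeas)]
  refine lintegral_congr fun a => ?_
  rw [lintegral_prod _ (by
    exact (hf.comp ((measurable_const.prodMk measurable_const).prodMk measurable_id)).aemeasurable)]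
  rw [lintegral_lintegral_swap]
  have hm : Measurable (fun q : (ℕ → E) × (ℕ → E) => f ((x, G x a), (q.2, q.1))) :=
    hf.comp ((measurable_const.prodMk measurable_const).prodMk
      (measurable_snd.prodMk measurable_fst))
  exact hm.aemeasurable

lemma map_W1 (π : Measure S) [IsProbabilityMeasure π] (ν : Measure E) [IsProbabilityMeasure ν]
    (κ : Kernel S S) [IsMarkovKernel κ] (F : S → E → S)
    (hF : Measurable (Function.uncurry F)) (hFκ : ∀ a, ν.map (F a) = κ a) :
    (omLaw π ν).map (W1 F) = ((π ⊗ₘ κ).map Prod.swap).prod ((iid ν).prod (iid ν)) := by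
  have hW := measurable_W1 (S := S) (E := E) F hF
  refine Measure.ext_of_lintegral _ ?_
  intro f hf
  rw [lintegral_map hf hW]
  unfold omLaw
  have hfW : Measurable (fun ω : Om S E => f (W1 F ω)) := hf.comp hW
  rw [lintegral_prod _ hfW.aemeasurable]
  rw [lintegral_prod _ hf.aemeasurable]
  rw [lintegral_map (Measurable.lintegral_prod_right' hf) measurable_swap]
  rw [Measure.lintegral_compProd]
  swap
  · exact (Measurable.lintegral_prod_right' hf).comp measurable_swap
  rw [lintegral_prod _ (Measurable.lintegral_prod_right' hfW).aemeasurable]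
  refine lintegral_congr fun x => ?_
  have hx : Measurable (fun e : E => F x e) := hF.comp (measurable_const.prodMk measurable_id)
  rw [← hFκ x, lintegral_map (by
    have := Measurable.lintegral_prod_right' (ν := (iid ν).prod (iid ν)) hf
    exact this.comp (measurable_id.prodMk measurable_const)) hx]
  have key : ∀ v : ℕ → E, ∫⁻ u, f (W1 F ((x, v), u)) ∂(iid ν) =
      ∫⁻ a, ∫⁻ w, f ((F x a, x), (w, v)) ∂(iid ν) ∂ν := by
    intro v
    rw [← lintegral_iid_split ν (fun p : E × (ℕ → E) => f ((F x p.1, x), (p.2, v)))]
    · rfl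
    · exact hf.comp (((hx.comp measurable_fst).prodMk measurable_const).prodMk
        (measurable_snd.prodMk measurable_const))
  simp_rw [key]
  rw [lintegral_lintegral_swap]
  swap
  · have hmeas : Measurable (fun q : ((ℕ → E) × E) × (ℕ → E) =>
        f ((F x q.1.2, x), (q.2, q.1.1))) := by
      apply hf.comp
      exact ((hx.comp (measurable_snd.comp measurable_fst)).prodMk measurable_const).prodMk
        (measurable_snd.prodMk (measurable_fst.comp measurable_fst))
    exact (Measurable.lintegral_prod_right' hmeas).aemeasurable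
  refine lintegral_congr fun a => ?_
  rw [lintegral_prod _ (by
    exact (hf.comp ((measurable_const.prodMk measurable_const).prodMk measurable_id)).aemeasurable)]
  rw [lintegral_lintegral_swap]
  rfl
  exact (hf.comp ((measurable_const.prodMk measurable_const).prodMk
    (measurable_snd.prodMk measurable_fst))).aemeasurable

lemma stat_one (π : Measure S) [IsProbabilityMeasure π] (ν : Measure E) [IsProbabilityMeasure ν]
    (κ κ' : Kernel S S) [IsMarkovKernel κ] [IsMarkovKernel κ'] (F G : S → E → S)
    (hF : Measurable (Function.uncurry F)) (hFκ : ∀ a, ν.map (F a) = κ a)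
    (hG : Measurable (Function.uncurry G)) (hGκ : ∀ a, ν.map (G a) = κ' a)
    (hrev : (π ⊗ₘ κ).map Prod.swap = π ⊗ₘ κ') :
    (omLaw π ν).map (fun ω (i : ℤ) => proc F G (i + 1) ω) =
      (omLaw π ν).map (fun ω (i : ℤ) => proc F G i ω) := by
  have h1 : (fun (ω : Om S E) (i : ℤ) => proc F G (i + 1) ω) = glue F G ∘ W1 F := by
    funext ω i
    exact proc_add_one F G i ω
  have h2 : (fun (ω : Om S E) (i : ℤ) => proc F G i ω) = glue F G ∘ W2 G := by
    funext ω i
    rfl
  rw [h1, h2, ← Measure.map_map (measurable_glue F G hF hG) (measurable_W1 F hF),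
    ← Measure.map_map (measurable_glue F G hF hG) (measurable_W2 G hG),
    map_W1 π ν κ F hF hFκ, map_W2 π ν κ' G hG hGκ, hrev]

end law

end Pool.Agent.Lib.MP_65c995_pr
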