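import Mathlib

/-! A finite computation: the binary linear code spanned by linear functions and eight quadratic
functions on six bits has all its weights between 24 and 40 outside the linear functions. -/

namespace Pool.Agent.Lib.MP_65c995_pr

/-- Number of ones among the `k` lowest bits of `n`. -/
def pc : ℕ → ℕ → ℕ
  | 0, _ => 0
  | k + 1, n => n % 2 + pc k (n / 2)

lemma pc_add (a b n : ℕ) : pc (a + b) n = pc a n + pc b (n / 2 ^ a) := by
  induction a generalizing n with
  | zero => simp [pc]
  | succ a ih =>
    have h : a + 1 + b = (a + b) + 1 := by ring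
    rw [h, pc, ih, pc, Nat.div_div_eq_div_mul, pow_succ, Nat.mul_comm 2]
    ring

lemma pc_mod (k n : ℕ) : pc k (n % 2 ^ k) = pc k n := by
  induction k generalizing n with
  | zero => simp [pc]
  | succ k ih =>
    rw [pc, pc, ← ih (n / 2)]
    have h1 : n % 2 ^ (k + 1) % 2 = n % 2 := Nat.mod_mod_of_dvd _ (dvd_pow_self 2 (by omega))
    have h2 : n % 2 ^ (k + 1) / 2 = n / 2 % 2 ^ k := by
      rw [pow_succ, Nat.mul_comm, Nat.mod_mul_right_div_self]
    rw [h1, h2]

/-- Table of the number of ones of each byte, four bits per entry. -/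
def byteTab : ℕ :=
  95125173855764218123276304889944061997689682402263585766959741291920687686033329201817409157123347502415384089435969498586180241031507595463600295898153685276653211633572815512294064538494957912327413386667662218713394765509704508661031522276467630197481635010039778342554499416459730172574551513689147646224

/-- Fast population count of `8 * k` bits by bytes. -/
def pcb : ℕ → ℕ → ℕ
  | 0, _ => 0
  | k + 1, n => (byteTab >>> (4 * (n % 256))) % 16 + pcb k (n / 256)

/-- The mask `b` if the bit `i` of `n` is set, and `0` otherwise. -/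
def sel (n i b : ℕ) : ℕ := if n.testBit i then b else 0

/-- Masks of the linear functions on six bits. -/
def lin (n : ℕ) : ℕ :=
  sel n 0 12297829382473034410 ^^^ (sel n 1 14757395258967641292 ^^^
  (sel n 2 17361641481138401520 ^^^ (sel n 3 18374966859414961920 ^^^
  (sel n 4 18446462603027742720 ^^^ sel n 5 18446744069414584320))))

/-- Masks of the quadratic functions on six bits. -/
def cod (n : ℕ) : ℕ :=
  sel n 0 12032759856826953834 ^^^ (sel n 1 17141408865047197768 ^^^
  (sel n 2 3721437131264988672 ^^^ (sel n 3 11458947709384522080 ^^^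
  (sel n 4 17085833326260340920 ^^^ (sel n 5 4338075844096242492 ^^^
  (sel n 6 11244074933071670522 ^^^ sel n 7 12848064392313169688))))))

lemma sel_xor (m n i b : ℕ) : sel (m ^^^ n) i b = sel m i b ^^^ sel n i b := by
  unfold sel
  rw [Nat.testBit_xor]
  cases m.testBit i <;> cases n.testBit i <;> simp

lemma lin_xor (m n : ℕ) : lin (m ^^^ n) = lin m ^^^ lin n := by
  unfold lin
  simp only [sel_xor]
  ac_rfl

lemma cod_xor (m n : ℕ) : cod (m ^^^ n) = cod m ^^^ cod n := by
  unfold cod
  simp only [sel_xor]
  ac_rfl

/-- Bounded universal quantifier as a fast boolean loop. -/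
def alln (f : ℕ → Bool) : ℕ → Bool
  | 0 => true
  | n + 1 => f n && alln f n

lemma alln_spec (f : ℕ → Bool) (n : ℕ) (h : alln f n = true) : ∀ k < n, f k = true := by
  induction n with
  | zero => intro k hk; omega
  | succ n ih =>
    rw [alln, Bool.and_eq_true] at h
    intro k hk
    rcases Nat.lt_succ_iff_lt_or_eq.mp hk with h' | h'
    · exact ih h.2 k h'
    · rw [h']; exact h.1

set_option maxRecDepth 100000 in
lemma byteTab_aux :
    alln (fun n => Nat.beq ((byteTab >>> (4 * n)) % 16) (pc 8 n)) 256 = true := by
  decide +kernel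

lemma pcb_eq (k n : ℕ) : pcb k n = pc (8 * k) n := by
  induction k generalizing n with
  | zero => simp [pc, pcb]
  | succ k ih =>
    have h : 8 * (k + 1) = 8 + 8 * k := by ring
    have h2 := alln_spec _ _ byteTab_aux (n % 256) (Nat.mod_lt _ (by norm_num))
    rw [Nat.beq_eq] at h2
    rw [h, pc_add, pcb, ih, h2]
    have h3 := pc_mod 8 n
    norm_num at h3 ⊢
    rw [h3]

/-- The weight test. -/
def okw (x : ℕ) : Bool := (fun w => Nat.ble 24 w && Nat.ble w 40) (pcb 8 x)

set_option maxRecDepth 100000 in
lemma lin_weights_aux : alln (fun n => Nat.beq (pcb 8 (lin (n + 1))) 32) 63 = true := by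
  decide +kernel

set_option maxRecDepth 100000 in
lemma lin_symm_aux :
    alln (fun n => alln (fun k => (lin n).testBit k == (lin k).testBit n) 64) 64 = true := by
  decide +kernel

set_option maxRecDepth 100000 in
lemma lin_zero_aux : alln (fun n => (lin n).testBit 0 == false) 64 = true := by
  decide +kernel

set_option maxRecDepth 100000 in
lemma cod_zero_aux : alln (fun n => (cod n).testBit 0 == false) 256 = true := by
  decide +kernel

set_option maxRecDepth 100000 in
lemma cod_weights_aux :
    alln (fun n => alln (fun b => okw (cod (n + 1) ^^^ lin b)) 64) 255 = true := by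
  decide +kernel

lemma lin_weights (n : ℕ) (h0 : n ≠ 0) (h : n < 64) : pc 64 (lin n) = 32 := by
  have := alln_spec _ _ lin_weights_aux (n - 1) (by omega)
  rw [Nat.beq_eq, pcb_eq] at this
  rwa [Nat.sub_add_cancel (by omega)] at this

lemma lin_symm (n k : ℕ) (hn : n < 64) (hk : k < 64) :
    (lin n).testBit k = (lin k).testBit n := by
  have := alln_spec _ _ (alln_spec _ _ lin_symm_aux n hn) k hk
  exact eq_of_beq this

lemma lin_zero (n : ℕ) (hn : n < 64) : (lin n).testBit 0 = false :=
  eq_of_beq (alln_spec _ _ lin_zero_aux n hn)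

lemma cod_zero (n : ℕ) (hn : n < 256) : (cod n).testBit 0 = false :=
  eq_of_beq (alln_spec _ _ cod_zero_aux n hn)

lemma cod_weights (n b : ℕ) (h0 : n ≠ 0) (h : n < 256) (hb : b < 64) :
    24 ≤ pc 64 (cod n ^^^ lin b) ∧ pc 64 (cod n ^^^ lin b) ≤ 40 := by
  have := alln_spec _ _ (alln_spec _ _ cod_weights_aux (n - 1) (by omega)) b hb
  rw [Nat.sub_add_cancel (by omega)] at this
  unfold okw at this
  rw [pcb_eq, Bool.and_eq_true] at this
  exact ⟨Nat.le_of_ble_eq_true this.1, Nat.le_of_ble_eq_true this.2⟩

/-- The sign attached to the bit `j` of the mask `x`. -/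
noncomputable def bs (x j : ℕ) : ℝ := if x.testBit j then -1 else 1

lemma bs_xor (x y j : ℕ) : bs (x ^^^ y) j = bs x j * bs y j := by
  unfold bs
  rw [Nat.testBit_xor]
  cases x.testBit j <;> cases y.testBit j <;> simp

lemma bs_sq (x j : ℕ) : bs x j * bs x j = 1 := by
  unfold bs
  cases x.testBit j <;> simp

lemma sum_bs (k x : ℕ) : ∑ j ∈ Finset.range k, bs x j = (k : ℝ) - 2 * (pc k x : ℝ) := by
  induction k generalizing x with
  | zero => simp [pc]
  | succ k ih =>
    rw [Finset.sum_range_succ']
    have h1 : ∀ j, bs x (j + 1) = bs (x / 2) j := by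
      intro j
      unfold bs
      rw [Nat.testBit_succ]
    have h2 : bs x 0 = 1 - 2 * ((x % 2 : ℕ) : ℝ) := by
      unfold bs
      rw [Nat.testBit_zero]
      rcases Nat.mod_two_eq_zero_or_one x with h | h
      · simp [h]
      · simp [h]; norm_num
    simp_rw [h1]
    rw [ih, h2, pc]
    push_cast
    ring

end Pool.Agent.Lib.MP_65c995_pr
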