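import Mathlib
import Pool.Agent.Lib.MP_65c995_pr.Code

/-! The finite data: two parts of 64 colours each, and the letter kernels `rho` and `nu`. -/

namespace Pool.Agent.Lib.MP_65c995_pr

open Finset

/-- Letters. -/
abbrev Let : Type := Fin 64

/-- Colours: a part and a letter. -/
abbrev Col : Type := Bool × Fin 64

/-- Code index of a colour. -/
def cidx (c : Col) : ℕ := c.2.1 ^^^ ((if c.1 then 64 else 0) ^^^ 128)

/-- The vector of a letter. -/
noncomputable def chi (l : Let) (j : Fin 63) : ℝ := bs (lin l.1) (j.1 + 1)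

/-- The vector of a letter in the basis of a colour. -/
noncomputable def gv (c : Col) (r : Let) (j : Fin 63) : ℝ :=
  bs (cod (cidx c) ^^^ lin r.1) (j.1 + 1)

/-- Scalar product. -/
noncomputable def dt (u v : Fin 63 → ℝ) : ℝ := ∑ j, u j * v j

lemma dt_comm (u v : Fin 63 → ℝ) : dt u v = dt v u := by
  unfold dt
  exact Finset.sum_congr rfl fun j _ => mul_comm _ _

lemma sum63 (f : ℕ → ℝ) : ∑ j : Fin 63, f (j.1 + 1) = (∑ j ∈ range 64, f j) - f 0 := by
  rw [Finset.sum_range_succ', Fin.sum_univ_eq_sum_range (fun j => f (j + 1)) 63]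
  ring

lemma sum_letter (f : ℕ → ℝ) : ∑ l : Let, f l.1 = ∑ j ∈ range 64, f j :=
  Fin.sum_univ_eq_sum_range f 64

lemma sum_chi (j : Fin 63) : ∑ l : Let, chi l j = 0 := by
  have h : ∀ l : Let, chi l j = bs (lin (j.1 + 1)) l.1 := by
    intro l
    unfold chi bs
    rw [lin_symm l.1 (j.1 + 1) l.2 (by omega)]
  simp_rw [h]
  rw [sum_letter (fun n => bs (lin (j.1 + 1)) n), sum_bs,
    lin_weights (j.1 + 1) (by omega) (by omega)]
  norm_num

lemma sum_chi_chi (j k : Fin 63) :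
    ∑ l : Let, chi l j * chi l k = if j = k then 64 else 0 := by
  by_cases hjk : j = k
  · subst hjk
    rw [if_pos rfl]
    have : ∀ l : Let, chi l j * chi l j = 1 := fun l => bs_sq _ _
    simp_rw [this]
    simp
  · rw [if_neg hjk]
    have h : ∀ l : Let, chi l j * chi l k = bs (lin ((j.1 + 1) ^^^ (k.1 + 1))) l.1 := by
      intro l
      rw [lin_xor, bs_xor]
      unfold chi bs
      rw [lin_symm l.1 (j.1 + 1) l.2 (by omega), lin_symm l.1 (k.1 + 1) l.2 (by omega)]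
    simp_rw [h]
    have hne : (j.1 + 1) ^^^ (k.1 + 1) ≠ 0 := by
      intro h0
      rw [Nat.xor_eq_zero_iff] at h0
      exact hjk (Fin.ext (by omega))
    have hlt : (j.1 + 1) ^^^ (k.1 + 1) < 64 :=
      Nat.xor_lt_two_pow (n := 6) (by omega) (by omega)
    rw [sum_letter (fun n => bs (lin ((j.1 + 1) ^^^ (k.1 + 1))) n), sum_bs,
      lin_weights _ hne hlt]
    norm_num

lemma gv_eq (c : Col) (r : Let) (j : Fin 63) :
    gv c r j = bs (cod (cidx c)) (j.1 + 1) * chi r j := by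
  unfold gv chi
  rw [bs_xor]

lemma sum_gv (c : Col) (j : Fin 63) : ∑ r : Let, gv c r j = 0 := by
  simp_rw [gv_eq]
  rw [← Finset.mul_sum, sum_chi, mul_zero]

lemma sum_gv_gv (c : Col) (j k : Fin 63) :
    ∑ r : Let, gv c r j * gv c r k = if j = k then 64 else 0 := by
  have h : ∀ r : Let, gv c r j * gv c r k =
      (bs (cod (cidx c)) (j.1 + 1) * bs (cod (cidx c)) (k.1 + 1)) * (chi r j * chi r k) := by
    intro r
    rw [gv_eq, gv_eq]; ring
  simp_rw [h]
  rw [← Finset.mul_sum, sum_chi_chi]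
  by_cases hjk : j = k
  · subst hjk
    rw [if_pos rfl, bs_sq, one_mul]
  · rw [if_neg hjk, mul_zero]

/-- Generic isotropy identity. -/
lemma iso_aux (w : Let → Fin 63 → ℝ)
    (hw : ∀ j k, ∑ r : Let, w r j * w r k = if j = k then 64 else 0) (u v : Fin 63 → ℝ) :
    ∑ r : Let, dt u (w r) * dt (w r) v = 64 * dt u v := by
  unfold dt
  simp_rw [Finset.sum_mul_sum]
  rw [Finset.sum_comm]
  have : ∀ j : Fin 63, ∑ r : Let, ∑ k : Fin 63, u j * w r j * (w r k * v k) =
      64 * (u j * v j) := by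
    intro j
    rw [Finset.sum_comm]
    have : ∀ k : Fin 63, ∑ r : Let, u j * w r j * (w r k * v k) =
        (u j * v k) * (if j = k then 64 else 0) := by
      intro k
      rw [← hw j k, Finset.mul_sum]
      exact Finset.sum_congr rfl fun r _ => by ring
    simp_rw [this]
    simp
    ring
  simp_rw [this]
  rw [← Finset.mul_sum]

lemma mean_aux (w : Let → Fin 63 → ℝ)
    (hw : ∀ j, ∑ r : Let, w r j = 0) (u : Fin 63 → ℝ) :
    ∑ r : Let, dt u (w r) = 0 := by
  unfold dt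
  rw [Finset.sum_comm]
  simp_rw [← Finset.mul_sum, hw]
  simp

lemma iso_chi (u v : Fin 63 → ℝ) : ∑ l : Let, dt u (chi l) * dt (chi l) v = 64 * dt u v :=
  iso_aux chi sum_chi_chi u v

lemma iso_gv (c : Col) (u v : Fin 63 → ℝ) :
    ∑ r : Let, dt u (gv c r) * dt (gv c r) v = 64 * dt u v :=
  iso_aux (gv c) (sum_gv_gv c) u v

lemma mean_chi (u : Fin 63 → ℝ) : ∑ l : Let, dt u (chi l) = 0 := mean_aux chi sum_chi u

lemma mean_gv (c : Col) (u : Fin 63 → ℝ) : ∑ r : Let, dt u (gv c r) = 0 :=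
  mean_aux (gv c) (sum_gv c) u

lemma mean_chi' (u : Fin 63 → ℝ) : ∑ l : Let, dt (chi l) u = 0 := by
  simp_rw [dt_comm _ u]; exact mean_chi u

lemma mean_gv' (c : Col) (u : Fin 63 → ℝ) : ∑ r : Let, dt (gv c r) u = 0 := by
  simp_rw [dt_comm _ u]; exact mean_gv c u

/-- Scalar products of sign vectors given by masks. -/
lemma dt_masks (x y : ℕ) (hx : x.testBit 0 = false) (hy : y.testBit 0 = false)
    (u v : Fin 63 → ℝ) (hu : ∀ j, u j = bs x (j.1 + 1)) (hv : ∀ j, v j = bs y (j.1 + 1)) :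
    dt u v = 63 - 2 * (pc 64 (x ^^^ y) : ℝ) := by
  unfold dt
  have h : ∀ j : Fin 63, u j * v j = bs (x ^^^ y) (j.1 + 1) := by
    intro j
    rw [hu, hv, bs_xor]
  simp_rw [h]
  rw [sum63 (fun n => bs (x ^^^ y) n), sum_bs]
  have : bs (x ^^^ y) 0 = 1 := by
    unfold bs
    rw [Nat.testBit_xor, hx, hy]
    simp
  rw [this]
  push_cast
  ring

lemma pc_zero (k : ℕ) : pc k 0 = 0 := by
  induction k with
  | zero => rfl
  | succ k ih => rw [pc]; simp [ih]

lemma cidx_lt (c : Col) : cidx c < 256 := by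
  unfold cidx
  apply Nat.xor_lt_two_pow (n := 8)
  · have := c.2.2; omega
  · split_ifs <;> decide

lemma cidx_ne_zero (c : Col) : cidx c ≠ 0 := by
  unfold cidx
  intro h
  rw [Nat.xor_eq_zero_iff] at h
  have := c.2.2
  split_ifs at h <;> simp at h <;> omega

lemma cidx_xor_ne_zero (c c' : Col) (h : c ≠ c') : cidx c ^^^ cidx c' ≠ 0 := by
  intro h0
  rw [Nat.xor_eq_zero_iff] at h0
  apply h
  rcases c with ⟨i, l⟩
  rcases c' with ⟨i', l'⟩
  unfold cidx at h0
  have hl := l.2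
  have hl' := l'.2
  have e : ∀ n : ℕ, n < 64 → n ^^^ 128 = n + 128 := by decide
  have e' : ∀ n : ℕ, n < 64 → n ^^^ 192 = n + 192 := by decide
  cases i <;> cases i' <;> simp at h0
  · exact Prod.ext rfl (Fin.ext h0)
  · rw [e _ hl, e' _ hl'] at h0; omega
  · rw [e _ hl', e' _ hl] at h0; omega
  · exact Prod.ext rfl (Fin.ext h0)

lemma gmask_zero (c : Col) (r : Let) : (cod (cidx c) ^^^ lin r.1).testBit 0 = false := by
  rw [Nat.testBit_xor, cod_zero _ (cidx_lt c), lin_zero _ r.2]; rfl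

lemma letter_xor_lt (r s : Let) : r.1 ^^^ s.1 < 64 :=
  Nat.xor_lt_two_pow (n := 6) r.2 s.2

/-- Two distinct colours are incoherent. -/
lemma abs_rho_le (c c' : Col) (h : c ≠ c') (r s : Let) : |dt (gv c r) (gv c' s)| ≤ 17 := by
  rw [dt_masks _ _ (gmask_zero c r) (gmask_zero c' s) (gv c r) (gv c' s) (fun _ => rfl) (fun _ => rfl)]
  have e : (cod (cidx c) ^^^ lin r.1) ^^^ (cod (cidx c') ^^^ lin s.1) =
      cod (cidx c ^^^ cidx c') ^^^ lin (r.1 ^^^ s.1) := by
    rw [cod_xor, lin_xor]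
    ac_rfl
  rw [e]
  obtain ⟨h1, h2⟩ := cod_weights (cidx c ^^^ cidx c') (r.1 ^^^ s.1) (cidx_xor_ne_zero c c' h)
    (Nat.xor_lt_two_pow (n := 8) (cidx_lt c) (cidx_lt c')) (letter_xor_lt r s)
  have h1' : (24 : ℝ) ≤ (pc 64 (cod (cidx c ^^^ cidx c') ^^^ lin (r.1 ^^^ s.1)) : ℝ) := by
    exact_mod_cast h1
  have h2' : (pc 64 (cod (cidx c ^^^ cidx c') ^^^ lin (r.1 ^^^ s.1)) : ℝ) ≤ 40 := by
    exact_mod_cast h2
  rw [abs_le]
  constructor <;> linarith

/-- The letter vectors are incoherent with the bases of the colours. -/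
lemma abs_lam_le (c : Col) (r l : Let) : |dt (gv c r) (chi l)| ≤ 17 := by
  rw [dt_masks _ _ (gmask_zero c r) (lin_zero l.1 l.2) (gv c r) (chi l) (fun _ => rfl) (fun _ => rfl)]
  have e : (cod (cidx c) ^^^ lin r.1) ^^^ lin l.1 =
      cod (cidx c) ^^^ lin (r.1 ^^^ l.1) := by
    rw [lin_xor]
    ac_rfl
  rw [e]
  obtain ⟨h1, h2⟩ := cod_weights (cidx c) (r.1 ^^^ l.1) (cidx_ne_zero c)
    (cidx_lt c) (letter_xor_lt r l)
  have h1' : (24 : ℝ) ≤ (pc 64 (cod (cidx c) ^^^ lin (r.1 ^^^ l.1)) : ℝ) := by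
    exact_mod_cast h1
  have h2' : (pc 64 (cod (cidx c) ^^^ lin (r.1 ^^^ l.1)) : ℝ) ≤ 40 := by
    exact_mod_cast h2
  rw [abs_le]
  constructor <;> linarith

lemma kap_ne (l l' : Let) (h : l ≠ l') : dt (chi l) (chi l') = -1 := by
  rw [dt_masks _ _ (lin_zero l.1 l.2) (lin_zero l'.1 l'.2) (chi l) (chi l') (fun _ => rfl) (fun _ => rfl),
    ← lin_xor, lin_weights _ _ (letter_xor_lt l l')]
  · norm_num
  · intro h0
    rw [Nat.xor_eq_zero_iff] at h0
    exact h (Fin.ext h0)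

lemma kap_self (l : Let) : dt (chi l) (chi l) = 63 := by
  rw [dt_masks _ _ (lin_zero l.1 l.2) (lin_zero l.1 l.2) (chi l) (chi l) (fun _ => rfl) (fun _ => rfl),
    Nat.xor_self, pc_zero]
  norm_num

lemma gg_self (c : Col) (r : Let) : dt (gv c r) (gv c r) = 63 := by
  rw [dt_masks _ _ (gmask_zero c r) (gmask_zero c r) (gv c r) (gv c r) (fun _ => rfl) (fun _ => rfl),
    Nat.xor_self, pc_zero]
  norm_num

lemma abs_gg_le (c c' : Col) (r s : Let) : |dt (gv c r) (gv c' s)| ≤ 63 := by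
  unfold dt
  refine (Finset.abs_sum_le_sum_abs _ _).trans ?_
  have : ∀ j : Fin 63, |gv c r j * gv c' s j| ≤ 1 := by
    intro j
    rw [abs_mul]
    have h1 : ∀ x n : ℕ, |bs x n| = 1 := by
      intro x n
      unfold bs
      split_ifs <;> simp
    unfold gv
    rw [h1, h1]; norm_num
  refine (Finset.sum_le_sum fun j _ => this j).trans ?_
  simp

end Pool.Agent.Lib.MP_65c995_pr
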