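import Mathlib
import Pool.Agent.Lib.MP_65c995_pr.Finite

/-! The letter kernels and their averages. -/

namespace Pool.Agent.Lib.MP_65c995_pr

open Finset

/-- Same-level letter kernel. -/
noncomputable def rho (c : Col) (a : Let) (c' : Col) (b : Let) : ℝ := dt (gv c a) (gv c' b)

/-- Top letter kernel. -/
noncomputable def nu (c : Col) (a : Let) (c' : Col) (b : Let) : ℝ :=
  if c.1 = c'.1 then dt (gv c a) (gv c' b) - dt (chi c.2) (chi c'.2)
  else dt (gv c a) (chi c'.2) - dt (chi c.2) (gv c' b)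

lemma rho_mean (c : Col) (a : Let) (c' : Col) : ∑ b, rho c a c' b = 0 := mean_gv c' _

lemma rho_mean' (c : Col) (c' : Col) (b : Let) : ∑ a, rho c a c' b = 0 := mean_gv' c _

lemma rho_rho (c : Col) (a : Let) (c' : Col) (c'' : Col) (d : Let) :
    ∑ b, rho c a c' b * rho c' b c'' d = 64 * rho c a c'' d := iso_gv c' _ _

lemma nu_mean_same (c : Col) (a : Let) (c' : Col) (h : c.1 = c'.1) :
    ∑ b, nu c a c' b = -64 * dt (chi c.2) (chi c'.2) := by
  unfold nu
  simp_rw [if_pos h]
  rw [Finset.sum_sub_distrib, mean_gv]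
  simp

lemma nu_mean_diff (c : Col) (a : Let) (c' : Col) (h : c.1 ≠ c'.1) :
    ∑ b, nu c a c' b = 64 * dt (gv c a) (chi c'.2) := by
  unfold nu
  simp_rw [if_neg h]
  rw [Finset.sum_sub_distrib, mean_gv]
  simp

lemma nu_mean_same' (c : Col) (c' : Col) (b : Let) (h : c.1 = c'.1) :
    ∑ a, nu c a c' b = -64 * dt (chi c.2) (chi c'.2) := by
  unfold nu
  simp_rw [if_pos h]
  rw [Finset.sum_sub_distrib, mean_gv']
  simp

lemma nu_mean_diff' (c : Col) (c' : Col) (b : Let) (h : c.1 ≠ c'.1) :
    ∑ a, nu c a c' b = -64 * dt (chi c.2) (gv c' b) := by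
  unfold nu
  simp_rw [if_neg h]
  rw [Finset.sum_sub_distrib, mean_gv']
  simp

lemma sum_col (f : Col → ℝ) : ∑ c : Col, f c = ∑ l : Let, f (true, l) + ∑ l : Let, f (false, l) := by
  rw [Fintype.sum_prod_type, Fintype.sum_bool]

lemma nu_total (c : Col) (a : Let) : ∑ c' : Col, ∑ b, nu c a c' b = 0 := by
  have key : ∀ i : Bool, ∑ l : Let, ∑ b, nu c a (i, l) b = 0 := by
    intro i
    by_cases h : c.1 = i
    · have : ∀ l : Let, ∑ b, nu c a (i, l) b = -64 * dt (chi c.2) (chi l) :=
        fun l => nu_mean_same c a (i, l) h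
      simp_rw [this]
      rw [← Finset.mul_sum, mean_chi, mul_zero]
    · have : ∀ l : Let, ∑ b, nu c a (i, l) b = 64 * dt (gv c a) (chi l) :=
        fun l => nu_mean_diff c a (i, l) h
      simp_rw [this]
      rw [← Finset.mul_sum, mean_chi, mul_zero]
  rw [sum_col, key, key, add_zero]

lemma nu_total' (c' : Col) (b : Let) : ∑ c : Col, ∑ a, nu c a c' b = 0 := by
  have key : ∀ i : Bool, ∑ l : Let, ∑ a, nu (i, l) a c' b = 0 := by
    intro i
    by_cases h : i = c'.1
    · have : ∀ l : Let, ∑ a, nu (i, l) a c' b = -64 * dt (chi l) (chi c'.2) :=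
        fun l => nu_mean_same' (i, l) c' b h
      simp_rw [this]
      rw [← Finset.mul_sum, mean_chi', mul_zero]
    · have : ∀ l : Let, ∑ a, nu (i, l) a c' b = -64 * dt (chi l) (gv c' b) :=
        fun l => nu_mean_diff' (i, l) c' b h
      simp_rw [this]
      rw [← Finset.mul_sum, mean_chi', mul_zero]
  rw [sum_col, key, key, add_zero]

/-- `∑_b nu * rho` depends on the middle colour only through its part. -/
lemma nu_rho (c : Col) (a : Let) (c' : Col) (c'' : Col) (d : Let) :
    ∑ b, nu c a c' b * rho c' b c'' d =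
      if c.1 = c'.1 then 64 * dt (gv c a) (gv c'' d) else -64 * dt (chi c.2) (gv c'' d) := by
  unfold nu rho
  by_cases h : c.1 = c'.1
  · simp_rw [if_pos h]
    simp_rw [sub_mul]
    rw [Finset.sum_sub_distrib, iso_gv, ← Finset.mul_sum, mean_gv']
    ring
  · simp_rw [if_neg h]
    simp_rw [sub_mul]
    rw [Finset.sum_sub_distrib, iso_gv, ← Finset.mul_sum, mean_gv']
    ring

lemma rho_nu (c : Col) (a : Let) (c' : Col) (c'' : Col) (d : Let) :
    ∑ b, rho c a c' b * nu c' b c'' d =
      if c'.1 = c''.1 then 64 * dt (gv c a) (gv c'' d) else 64 * dt (gv c a) (chi c''.2) := by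
  unfold nu rho
  by_cases h : c'.1 = c''.1
  · simp_rw [if_pos h]
    simp_rw [mul_sub]
    rw [Finset.sum_sub_distrib, iso_gv, ← Finset.sum_mul, mean_gv]
    ring
  · simp_rw [if_neg h]
    simp_rw [mul_sub]
    rw [Finset.sum_sub_distrib, iso_gv, ← Finset.sum_mul, mean_gv]
    ring

lemma nu_nu (c : Col) (a : Let) (c'' : Col) (d : Let) :
    ∑ c' : Col, ∑ b, nu c a c' b * nu c' b c'' d = 0 := by
  have hC : ∀ (c' : Col), ∑ b, nu c a c' b * nu c' b c'' d =
      (if c.1 = c'.1 then
        (if c'.1 = c''.1 then 64 * dt (gv c a) (gv c'' d) +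
            64 * (dt (chi c.2) (chi c'.2) * dt (chi c'.2) (chi c''.2))
          else 64 * dt (gv c a) (chi c''.2) +
            64 * (dt (chi c.2) (chi c'.2) * dt (chi c'.2) (gv c'' d)))
       else
        (if c'.1 = c''.1 then - (64 * dt (chi c.2) (gv c'' d)) -
            64 * (dt (gv c a) (chi c'.2) * dt (chi c'.2) (chi c''.2))
          else - (64 * dt (chi c.2) (chi c''.2)) -
            64 * (dt (gv c a) (chi c'.2) * dt (chi c'.2) (gv c'' d)))) := by
    intro c'
    unfold nu
    by_cases h : c.1 = c'.1 <;> by_cases h' : c'.1 = c''.1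
    · simp_rw [if_pos h, if_pos h']
      have e : ∀ b, (dt (gv c a) (gv c' b) - dt (chi c.2) (chi c'.2)) *
          (dt (gv c' b) (gv c'' d) - dt (chi c'.2) (chi c''.2)) =
          dt (gv c a) (gv c' b) * dt (gv c' b) (gv c'' d) -
          dt (chi c'.2) (chi c''.2) * dt (gv c a) (gv c' b) -
          dt (chi c.2) (chi c'.2) * dt (gv c' b) (gv c'' d) +
          dt (chi c.2) (chi c'.2) * dt (chi c'.2) (chi c''.2) := fun b => by ring
      simp_rw [e]
      rw [Finset.sum_add_distrib, Finset.sum_sub_distrib, Finset.sum_sub_distrib, iso_gv,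
        ← Finset.mul_sum, ← Finset.mul_sum, mean_gv, mean_gv']
      simp
    · simp_rw [if_pos h, if_neg h']
      have e : ∀ b, (dt (gv c a) (gv c' b) - dt (chi c.2) (chi c'.2)) *
          (dt (gv c' b) (chi c''.2) - dt (chi c'.2) (gv c'' d)) =
          dt (gv c a) (gv c' b) * dt (gv c' b) (chi c''.2) -
          dt (chi c'.2) (gv c'' d) * dt (gv c a) (gv c' b) -
          dt (chi c.2) (chi c'.2) * dt (gv c' b) (chi c''.2) +
          dt (chi c.2) (chi c'.2) * dt (chi c'.2) (gv c'' d) := fun b => by ring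
      simp_rw [e]
      rw [Finset.sum_add_distrib, Finset.sum_sub_distrib, Finset.sum_sub_distrib, iso_gv,
        ← Finset.mul_sum, ← Finset.mul_sum, mean_gv, mean_gv']
      simp
    · simp_rw [if_neg h, if_pos h']
      have e : ∀ b, (dt (gv c a) (chi c'.2) - dt (chi c.2) (gv c' b)) *
          (dt (gv c' b) (gv c'' d) - dt (chi c'.2) (chi c''.2)) =
          dt (gv c a) (chi c'.2) * dt (gv c' b) (gv c'' d) -
          dt (chi c.2) (gv c' b) * dt (gv c' b) (gv c'' d) +
          dt (chi c'.2) (chi c''.2) * dt (chi c.2) (gv c' b) -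
          dt (gv c a) (chi c'.2) * dt (chi c'.2) (chi c''.2) := fun b => by ring
      simp_rw [e]
      rw [Finset.sum_sub_distrib, Finset.sum_add_distrib, Finset.sum_sub_distrib, iso_gv,
        ← Finset.mul_sum, ← Finset.mul_sum, mean_gv, mean_gv']
      simp
    · simp_rw [if_neg h, if_neg h']
      have e : ∀ b, (dt (gv c a) (chi c'.2) - dt (chi c.2) (gv c' b)) *
          (dt (gv c' b) (chi c''.2) - dt (chi c'.2) (gv c'' d)) =
          dt (gv c a) (chi c'.2) * dt (gv c' b) (chi c''.2) -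
          dt (chi c.2) (gv c' b) * dt (gv c' b) (chi c''.2) +
          dt (chi c'.2) (gv c'' d) * dt (chi c.2) (gv c' b) -
          dt (gv c a) (chi c'.2) * dt (chi c'.2) (gv c'' d) := fun b => by ring
      simp_rw [e]
      rw [Finset.sum_sub_distrib, Finset.sum_add_distrib, Finset.sum_sub_distrib, iso_gv,
        ← Finset.mul_sum, ← Finset.mul_sum, mean_gv, mean_gv']
      simp
  simp_rw [hC]
  rw [sum_col]
  simp only
  have s1 : ∑ l : Let, (64 * dt (gv c a) (gv c'' d) +
            64 * (dt (chi c.2) (chi l) * dt (chi l) (chi c''.2))) =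
      64 * (64 * dt (gv c a) (gv c'' d) + 64 * dt (chi c.2) (chi c''.2)) := by
    rw [Finset.sum_add_distrib, Finset.sum_const, ← Finset.mul_sum, iso_chi]
    simp; ring
  have s2 : ∑ l : Let, (64 * dt (gv c a) (chi c''.2) +
            64 * (dt (chi c.2) (chi l) * dt (chi l) (gv c'' d))) =
      64 * (64 * dt (gv c a) (chi c''.2) + 64 * dt (chi c.2) (gv c'' d)) := by
    rw [Finset.sum_add_distrib, Finset.sum_const, ← Finset.mul_sum, iso_chi]
    simp; ring
  have s3 : ∑ l : Let, (- (64 * dt (chi c.2) (gv c'' d)) -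
            64 * (dt (gv c a) (chi l) * dt (chi l) (chi c''.2))) =
      - (64 * (64 * dt (chi c.2) (gv c'' d) + 64 * dt (gv c a) (chi c''.2))) := by
    rw [Finset.sum_sub_distrib, ← Finset.mul_sum, iso_chi]
    simp; ring
  have s4 : ∑ l : Let, (- (64 * dt (chi c.2) (chi c''.2)) -
            64 * (dt (gv c a) (chi l) * dt (chi l) (gv c'' d))) =
      - (64 * (64 * dt (chi c.2) (chi c''.2) + 64 * dt (gv c a) (gv c'' d))) := by
    rw [Finset.sum_sub_distrib, ← Finset.mul_sum, iso_chi]
    simp; ring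
  rcases c with ⟨i, l⟩
  rcases c'' with ⟨k, m⟩
  cases i <;> cases k <;> simp only [if_true, if_false, Bool.false_eq_true, reduceCtorEq] <;>
    first
    | (rw [s1, s4]; ring)
    | (rw [s4, s1]; ring)
    | (rw [s2, s3]; ring)
    | (rw [s3, s2]; ring)

lemma nu_rho_nu (c : Col) (a : Let) (c'' : Col) (d e : Let) :
    ∑ c' : Col, (∑ b, nu c a c' b * rho c' b c'' d) * (∑ b, nu c' b c'' e) = 0 := by
  rw [sum_col]
  have key : ∀ i : Bool, ∑ l : Let, (∑ b, nu c a (i, l) b * rho (i, l) b c'' d) *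
      (∑ b, nu (i, l) b c'' e) = 0 := by
    intro i
    have hA : ∀ l : Let, ∑ b, nu c a (i, l) b * rho (i, l) b c'' d =
        if c.1 = i then 64 * dt (gv c a) (gv c'' d) else -64 * dt (chi c.2) (gv c'' d) :=
      fun l => nu_rho c a (i, l) c'' d
    simp_rw [hA]
    rw [← Finset.mul_sum]
    by_cases h : i = c''.1
    · have : ∀ l : Let, ∑ b, nu (i, l) b c'' e = -64 * dt (chi l) (chi c''.2) :=
        fun l => nu_mean_same' (i, l) c'' e h
      simp_rw [this]
      rw [← Finset.mul_sum, mean_chi', mul_zero, mul_zero]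
    · have : ∀ l : Let, ∑ b, nu (i, l) b c'' e = -64 * dt (chi l) (gv c'' e) :=
        fun l => nu_mean_diff' (i, l) c'' e h
      simp_rw [this]
      rw [← Finset.mul_sum, mean_chi', mul_zero, mul_zero]
  rw [key, key, add_zero]

lemma rho_nu_nu (c : Col) (a e : Let) (c'' : Col) (d : Let) :
    ∑ c' : Col, (∑ b, rho c a c' b * nu c' b c'' d) * (∑ b, nu c e c' b) = 0 := by
  rw [sum_col]
  have key : ∀ i : Bool, ∑ l : Let, (∑ b, rho c a (i, l) b * nu (i, l) b c'' d) *
      (∑ b, nu c e (i, l) b) = 0 := by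
    intro i
    have hA : ∀ l : Let, ∑ b, rho c a (i, l) b * nu (i, l) b c'' d =
        if i = c''.1 then 64 * dt (gv c a) (gv c'' d) else 64 * dt (gv c a) (chi c''.2) :=
      fun l => rho_nu c a (i, l) c'' d
    simp_rw [hA]
    rw [← Finset.mul_sum]
    by_cases h : c.1 = i
    · have : ∀ l : Let, ∑ b, nu c e (i, l) b = -64 * dt (chi c.2) (chi l) :=
        fun l => nu_mean_same c e (i, l) h
      simp_rw [this]
      rw [← Finset.mul_sum, mean_chi, mul_zero, mul_zero]
    · have : ∀ l : Let, ∑ b, nu c e (i, l) b = 64 * dt (gv c e) (chi l) :=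
        fun l => nu_mean_diff c e (i, l) h
      simp_rw [this]
      rw [← Finset.mul_sum, mean_chi, mul_zero, mul_zero]
  rw [key, key, add_zero]

lemma nu_self (c : Col) (a b : Let) : nu c a c b = rho c a c b - 63 := by
  unfold nu rho
  rw [if_pos rfl, kap_self]

lemma rho_abs_le (c c' : Col) (h : c ≠ c') (a b : Let) : |rho c a c' b| ≤ 17 :=
  abs_rho_le c c' h a b

lemma rho_abs_le' (c c' : Col) (a b : Let) : |rho c a c' b| ≤ 63 := abs_gg_le c c' a b

lemma nu_abs_le (c c' : Col) (h : c ≠ c') (a b : Let) : |nu c a c' b| ≤ 34 := by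
  unfold nu
  split_ifs with hp
  · have hl : c.2 ≠ c'.2 := fun hl => h (Prod.ext hp hl)
    rw [kap_ne _ _ hl]
    have := abs_rho_le c c' h a b
    rw [abs_le] at this ⊢
    constructor <;> linarith
  · have h1 := abs_lam_le c a c'.2
    have h2 := abs_lam_le c' b c.2
    rw [dt_comm] at h2
    rw [abs_le] at h1 h2 ⊢
    constructor <;> linarith

lemma rho_abs_mean (c c' : Col) (a : Let) : ∑ b, |rho c a c' b| ≤ 64 * 8 := by
  have h : ∀ b, |rho c a c' b| ≤ (rho c a c' b * rho c' b c a) / 16 + 4 := by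
    intro b
    have e : rho c' b c a = rho c a c' b := dt_comm _ _
    rw [e]
    nlinarith [sq_nonneg (|rho c a c' b| - 8), sq_abs (rho c a c' b)]
  refine (Finset.sum_le_sum fun b _ => h b).trans ?_
  rw [Finset.sum_add_distrib, ← Finset.sum_div, rho_rho]
  have : rho c a c a = 63 := gg_self c a
  rw [this]
  simp
  norm_num

end Pool.Agent.Lib.MP_65c995_pr
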