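import Mathlib
import Pool.Agent.Lib.MP_65c995_pr.Letters
import Pool.Agent.Lib.MP_65c995_pr.Noise

/-! The truncated densities and their integrals. -/

namespace Pool.Agent.Lib.MP_65c995_pr

open Finset MeasureTheory

/-- State space: a colour and a sequence of letters. -/
abbrev St : Type := Col × (ℕ → Let)

/-- Uniform probability on a finite type. -/
noncomputable def unif (X : Type) [Fintype X] [Nonempty X] [MeasurableSpace X] : Measure X :=
  (PMF.uniformOfFintype X).toMeasure

instance (X : Type) [Fintype X] [Nonempty X] [MeasurableSpace X] :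
    IsProbabilityMeasure (unif X) := by
  unfold unif; infer_instance

lemma integral_unif (X : Type) [Fintype X] [Nonempty X] [MeasurableSpace X]
    [MeasurableSingletonClass X] (f : X → ℝ) :
    ∫ x, f x ∂(unif X) = (Fintype.card X : ℝ)⁻¹ * ∑ x, f x := by
  unfold unif
  rw [PMF.integral_eq_sum, Finset.mul_sum]
  refine Finset.sum_congr rfl fun x _ => ?_
  simp

/-- Reference measure on the state space. -/
noncomputable def piS : Measure St := (unif Col).prod (iid (unif Let))

instance : IsProbabilityMeasure piS := by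
  unfold piS; infer_instance

lemma meas_letter (F : Col → ℕ → Let → ℝ) (t : ℕ) :
    Measurable (fun y : St => F y.1 t (y.2 t)) := by
  have h1 : Measurable (fun y : St => ((y.1, y.2 t) : Col × Let)) :=
    measurable_fst.prodMk ((measurable_pi_apply t).comp measurable_snd)
  have h2 : Measurable (fun p : Col × Let => F p.1 t p.2) := Measurable.of_discrete
  exact h2.comp h1

lemma meas_prod (F : Col → ℕ → Let → ℝ) (N : ℕ) :
    Measurable (fun y : St => ∏ t ∈ range N, F y.1 t (y.2 t)) :=
  Finset.measurable_prod _ fun t _ => meas_letter F t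

lemma bdd_prod (F : Col → ℕ → Let → ℝ) (N : ℕ) :
    ∃ M : ℝ, ∀ y : St, ‖∏ t ∈ range N, F y.1 t (y.2 t)‖ ≤ M := by
  refine ⟨∏ t ∈ range N, ∑ p : Col × Let, |F p.1 t p.2|, fun y => ?_⟩
  rw [Real.norm_eq_abs, Finset.abs_prod]
  refine Finset.prod_le_prod (fun t _ => abs_nonneg _) fun t _ => ?_
  exact Finset.single_le_sum (f := fun p : Col × Let => |F p.1 t p.2|)
    (fun p _ => abs_nonneg _) (Finset.mem_univ (y.1, y.2 t))

lemma integrable_prod' (F : Col → ℕ → Let → ℝ) (N : ℕ) :
    Integrable (fun y : St => ∏ t ∈ range N, F y.1 t (y.2 t)) piS := by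
  obtain ⟨M, hM⟩ := bdd_prod F N
  exact Integrable.of_bound (meas_prod F N).aestronglyMeasurable M
    (Filter.Eventually.of_forall hM)

lemma integral_iid_prod (f : ℕ → Let → ℝ) (N : ℕ) :
    ∫ y : ℕ → Let, ∏ t ∈ range N, f t (y t) ∂(iid (unif Let)) =
      ∏ t ∈ range N, ((64 : ℝ)⁻¹ * ∑ b, f t b) := by
  have h1 : ∀ y : ℕ → Let, ∏ t ∈ range N, f t (y t) =
      (fun w : (i : (range N : Finset ℕ)) → Let => ∏ i, f i.1 (w i)) ((range N).restrict y) := by
    intro y
    rw [← Finset.prod_coe_sort]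
    rfl
  simp_rw [h1]
  unfold iid
  rw [integral_restrict_infinitePi (s := range N)
    (f := fun w : (i : (range N : Finset ℕ)) → Let => ∏ i, f i.1 (w i))
    (fun _ : ℕ => unif Let)]
  · rw [integral_fintype_prod_eq_prod (fun (i : (range N : Finset ℕ)) (b : Let) => f i.1 b)]
    simp_rw [integral_unif]
    rw [Fintype.card_fin]
    push_cast
    exact Finset.prod_coe_sort (range N) (fun t => (64 : ℝ)⁻¹ * ∑ b, f t b)
  · apply Measurable.aestronglyMeasurable
    refine Finset.measurable_prod _ fun i _ => ?_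
    have : Measurable (fun b : Let => f i.1 b) := Measurable.of_discrete
    exact this.comp (measurable_pi_apply i)

lemma integral_prod_letters (F : Col → ℕ → Let → ℝ) (N : ℕ) :
    ∫ y : St, ∏ t ∈ range N, F y.1 t (y.2 t) ∂piS =
      (128 : ℝ)⁻¹ * ∑ c : Col, ∏ t ∈ range N, ((64 : ℝ)⁻¹ * ∑ b, F c t b) := by
  have hI := integrable_prod' F N
  unfold piS at hI ⊢
  rw [integral_prod _ hI]
  simp only
  have : ∀ c : Col, ∫ y : ℕ → Let, ∏ t ∈ range N, F c t (y t) ∂(iid (unif Let)) =
      ∏ t ∈ range N, ((64 : ℝ)⁻¹ * ∑ b, F c t b) := fun c => integral_iid_prod (F c) N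
  simp_rw [this]
  rw [integral_unif]
  have hcard : (Fintype.card Col : ℝ) = 128 := by
    simp [Fintype.card_prod]
  rw [hcard]

/-- The increments of the density. -/
noncomputable def dl (m : ℕ) (x y : St) : ℝ :=
  (1 / 63 : ℝ) ^ (m + 1) * ((∏ t ∈ range m, rho x.1 (x.2 t) y.1 (y.2 t)) *
    nu x.1 (x.2 m) y.1 (y.2 m))

/-- Letter factors of the increments, as a function of the second variable. -/
noncomputable def fa (m : ℕ) (x : St) (c : Col) (t : ℕ) (b : Let) : ℝ :=
  if t < m then rho x.1 (x.2 t) c b else if t = m then nu x.1 (x.2 m) c b else 1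

/-- Letter factors of the increments, as a function of the first variable. -/
noncomputable def fb (m : ℕ) (z : St) (c : Col) (t : ℕ) (b : Let) : ℝ :=
  if t < m then rho c b z.1 (z.2 t) else if t = m then nu c b z.1 (z.2 m) else 1

lemma dl_fa (m k : ℕ) (x y : St) :
    dl m x y = (1 / 63 : ℝ) ^ (m + 1) * ∏ t ∈ range (m + 1 + k), fa m x y.1 t (y.2 t) := by
  unfold dl
  congr 1
  rw [Finset.prod_range_add, Finset.prod_range_succ]
  have h1 : ∏ t ∈ range m, fa m x y.1 t (y.2 t) =
      ∏ t ∈ range m, rho x.1 (x.2 t) y.1 (y.2 t) := by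
    refine Finset.prod_congr rfl fun t ht => ?_
    rw [fa, if_pos (Finset.mem_range.mp ht)]
  have h2 : ∏ t ∈ range k, fa m x y.1 (m + 1 + t) (y.2 (m + 1 + t)) = 1 := by
    refine Finset.prod_eq_one fun t _ => ?_
    rw [fa, if_neg (by omega), if_neg (by omega)]
  rw [h1, h2, mul_one]
  congr 1
  rw [fa, if_neg (lt_irrefl _), if_pos rfl]

lemma dl_fb (m k : ℕ) (y z : St) :
    dl m y z = (1 / 63 : ℝ) ^ (m + 1) * ∏ t ∈ range (m + 1 + k), fb m z y.1 t (y.2 t) := by
  unfold dl
  congr 1
  rw [Finset.prod_range_add, Finset.prod_range_succ]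
  have h1 : ∏ t ∈ range m, fb m z y.1 t (y.2 t) =
      ∏ t ∈ range m, rho y.1 (y.2 t) z.1 (z.2 t) := by
    refine Finset.prod_congr rfl fun t ht => ?_
    rw [fb, if_pos (Finset.mem_range.mp ht)]
  have h2 : ∏ t ∈ range k, fb m z y.1 (m + 1 + t) (y.2 (m + 1 + t)) = 1 := by
    refine Finset.prod_eq_one fun t _ => ?_
    rw [fb, if_neg (by omega), if_neg (by omega)]
  rw [h1, h2, mul_one]
  congr 1
  rw [fb, if_neg (lt_irrefl _), if_pos rfl]

lemma integral_dl (m : ℕ) (x : St) : ∫ y, dl m x y ∂piS = 0 := by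
  simp_rw [dl_fa m 0 x]
  rw [integral_const_mul, integral_prod_letters (fa m x)]
  rw [mul_eq_zero]; right
  rw [mul_eq_zero]; right
  rcases Nat.eq_zero_or_pos m with hm | hm
  · subst hm
    simp only [zero_add, add_zero, Finset.prod_range_one]
    rw [← Finset.mul_sum]
    have : ∀ c : Col, ∑ b, fa 0 x c 0 b = ∑ b, nu x.1 (x.2 0) c b := by
      intro c
      refine Finset.sum_congr rfl fun b _ => ?_
      rw [fa, if_neg (lt_irrefl _), if_pos rfl]
    simp_rw [this]
    rw [nu_total, mul_zero]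
  · refine Finset.sum_eq_zero fun c _ => ?_
    refine Finset.prod_eq_zero (Finset.mem_range.mpr (show 0 < m + 1 + 0 by omega)) ?_
    have : ∀ b, fa m x c 0 b = rho x.1 (x.2 0) c b := by
      intro b; rw [fa, if_pos hm]
    simp_rw [this]
    rw [rho_mean, mul_zero]

lemma integral_dl' (m : ℕ) (z : St) : ∫ y, dl m y z ∂piS = 0 := by
  simp_rw [dl_fb m 0 _ z]
  rw [integral_const_mul, integral_prod_letters (fb m z)]
  rw [mul_eq_zero]; right
  rw [mul_eq_zero]; right
  rcases Nat.eq_zero_or_pos m with hm | hm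
  · subst hm
    simp only [zero_add, add_zero, Finset.prod_range_one]
    rw [← Finset.mul_sum]
    have : ∀ c : Col, ∑ b, fb 0 z c 0 b = ∑ b, nu c b z.1 (z.2 0) := by
      intro c
      refine Finset.sum_congr rfl fun b _ => ?_
      rw [fb, if_neg (lt_irrefl _), if_pos rfl]
    simp_rw [this]
    rw [nu_total', mul_zero]
  · refine Finset.sum_eq_zero fun c _ => ?_
    refine Finset.prod_eq_zero (Finset.mem_range.mpr (show 0 < m + 1 + 0 by omega)) ?_
    have : ∀ b, fb m z c 0 b = rho c b z.1 (z.2 0) := by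
      intro b; rw [fb, if_pos hm]
    simp_rw [this]
    rw [rho_mean', mul_zero]

lemma integral_dl_dl_aux (m m' N : ℕ) (x z : St) (k k' : ℕ) (hN : N = m + 1 + k)
    (hN' : N = m' + 1 + k') :
    ∫ y, dl m x y * dl m' y z ∂piS = ((1 / 63 : ℝ) ^ (m + 1) * (1 / 63 : ℝ) ^ (m' + 1)) *
      ((128 : ℝ)⁻¹ * ∑ c : Col, ∏ t ∈ range N, ((64 : ℝ)⁻¹ *
        ∑ b, fa m x c t b * fb m' z c t b)) := by
  have h : ∀ y, dl m x y * dl m' y z = ((1 / 63 : ℝ) ^ (m + 1) * (1 / 63 : ℝ) ^ (m' + 1)) *
      ∏ t ∈ range N, (fa m x y.1 t (y.2 t) * fb m' z y.1 t (y.2 t)) := by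
    intro y
    rw [dl_fa m k, dl_fb m' k', ← hN, ← hN', Finset.prod_mul_distrib]
    ring
  simp_rw [h]
  rw [integral_const_mul,
    integral_prod_letters (fun c t b => fa m x c t b * fb m' z c t b)]

lemma integral_dl_dl (m m' : ℕ) (x z : St) : ∫ y, dl m x y * dl m' y z ∂piS = 0 := by
  rcases Nat.lt_trichotomy m m' with h | h | h
  · -- m < m'
    rw [integral_dl_dl_aux m m' (m' + 1) x z (m' - m) 0 (by omega) (by omega)]
    rw [mul_eq_zero]; right
    rw [mul_eq_zero]; right
    rcases Nat.lt_or_ge (m + 1) m' with h2 | h2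
    · refine Finset.sum_eq_zero fun c _ => ?_
      refine Finset.prod_eq_zero (Finset.mem_range.mpr (show m + 1 < m' + 1 by omega)) ?_
      have : ∀ b, fa m x c (m + 1) b * fb m' z c (m + 1) b = rho c b z.1 (z.2 (m + 1)) := by
        intro b
        rw [fa, if_neg (by omega), if_neg (by omega), fb, if_pos h2, one_mul]
      simp_rw [this]
      rw [rho_mean', mul_zero]
    · have hm' : m' = m + 1 := by omega
      subst hm'
      have : ∀ c : Col, ∏ t ∈ range (m + 1 + 1), ((64 : ℝ)⁻¹ *
          ∑ b, fa m x c t b * fb (m + 1) z c t b) =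
          ((∏ t ∈ range m, rho x.1 (x.2 t) z.1 (z.2 t)) * (64 : ℝ)⁻¹ * (64 : ℝ)⁻¹) *
          ((∑ b, nu x.1 (x.2 m) c b * rho c b z.1 (z.2 m)) *
            (∑ b, nu c b z.1 (z.2 (m + 1)))) := by
        intro c
        rw [Finset.prod_range_succ, Finset.prod_range_succ]
        have h1 : ∏ t ∈ range m, ((64 : ℝ)⁻¹ * ∑ b, fa m x c t b * fb (m + 1) z c t b) =
            ∏ t ∈ range m, rho x.1 (x.2 t) z.1 (z.2 t) := by
          refine Finset.prod_congr rfl fun t ht => ?_
          have ht' := Finset.mem_range.mp ht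
          have : ∀ b, fa m x c t b * fb (m + 1) z c t b =
              rho x.1 (x.2 t) c b * rho c b z.1 (z.2 t) := by
            intro b
            rw [fa, if_pos ht', fb, if_pos (by omega)]
          simp_rw [this]
          rw [rho_rho]; ring
        have h2 : ∀ b, fa m x c m b * fb (m + 1) z c m b =
            nu x.1 (x.2 m) c b * rho c b z.1 (z.2 m) := by
          intro b
          rw [fa, if_neg (lt_irrefl _), if_pos rfl, fb, if_pos (by omega)]
        have h3 : ∀ b, fa m x c (m + 1) b * fb (m + 1) z c (m + 1) b =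
            nu c b z.1 (z.2 (m + 1)) := by
          intro b
          rw [fa, if_neg (by omega), if_neg (by omega), fb, if_neg (lt_irrefl _), if_pos rfl,
            one_mul]
        rw [h1]
        simp_rw [h2, h3]
        ring
      simp_rw [this]
      rw [← Finset.mul_sum, nu_rho_nu, mul_zero]
  · -- m = m'
    subst h
    rw [integral_dl_dl_aux m m (m + 1) x z 0 0 (by omega) (by omega)]
    rw [mul_eq_zero]; right
    rw [mul_eq_zero]; right
    have : ∀ c : Col, ∏ t ∈ range (m + 1), ((64 : ℝ)⁻¹ *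
        ∑ b, fa m x c t b * fb m z c t b) =
        ((∏ t ∈ range m, rho x.1 (x.2 t) z.1 (z.2 t)) * (64 : ℝ)⁻¹) *
        (∑ b, nu x.1 (x.2 m) c b * nu c b z.1 (z.2 m)) := by
      intro c
      rw [Finset.prod_range_succ]
      have h1 : ∏ t ∈ range m, ((64 : ℝ)⁻¹ * ∑ b, fa m x c t b * fb m z c t b) =
          ∏ t ∈ range m, rho x.1 (x.2 t) z.1 (z.2 t) := by
        refine Finset.prod_congr rfl fun t ht => ?_
        have ht' := Finset.mem_range.mp ht
        have : ∀ b, fa m x c t b * fb m z c t b =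
            rho x.1 (x.2 t) c b * rho c b z.1 (z.2 t) := by
          intro b
          rw [fa, if_pos ht', fb, if_pos ht']
        simp_rw [this]
        rw [rho_rho]; ring
      have h2 : ∀ b, fa m x c m b * fb m z c m b =
          nu x.1 (x.2 m) c b * nu c b z.1 (z.2 m) := by
        intro b
        rw [fa, if_neg (lt_irrefl _), if_pos rfl, fb, if_neg (lt_irrefl _), if_pos rfl]
      rw [h1]
      simp_rw [h2]
      ring
    simp_rw [this]
    rw [← Finset.mul_sum, nu_nu, mul_zero]
  · -- m' < m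
    rw [integral_dl_dl_aux m m' (m + 1) x z 0 (m - m') (by omega) (by omega)]
    rw [mul_eq_zero]; right
    rw [mul_eq_zero]; right
    rcases Nat.lt_or_ge (m' + 1) m with h2 | h2
    · refine Finset.sum_eq_zero fun c _ => ?_
      refine Finset.prod_eq_zero (Finset.mem_range.mpr (show m' + 1 < m + 1 by omega)) ?_
      have : ∀ b, fa m x c (m' + 1) b * fb m' z c (m' + 1) b = rho x.1 (x.2 (m' + 1)) c b := by
        intro b
        rw [fa, if_pos h2, fb, if_neg (by omega), if_neg (by omega), mul_one]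
      simp_rw [this]
      rw [rho_mean, mul_zero]
    · have hm' : m = m' + 1 := by omega
      subst hm'
      have : ∀ c : Col, ∏ t ∈ range (m' + 1 + 1), ((64 : ℝ)⁻¹ *
          ∑ b, fa (m' + 1) x c t b * fb m' z c t b) =
          ((∏ t ∈ range m', rho x.1 (x.2 t) z.1 (z.2 t)) * (64 : ℝ)⁻¹ * (64 : ℝ)⁻¹) *
          ((∑ b, rho x.1 (x.2 m') c b * nu c b z.1 (z.2 m')) *
            (∑ b, nu x.1 (x.2 (m' + 1)) c b)) := by
        intro c
        rw [Finset.prod_range_succ, Finset.prod_range_succ]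
        have h1 : ∏ t ∈ range m', ((64 : ℝ)⁻¹ * ∑ b, fa (m' + 1) x c t b * fb m' z c t b) =
            ∏ t ∈ range m', rho x.1 (x.2 t) z.1 (z.2 t) := by
          refine Finset.prod_congr rfl fun t ht => ?_
          have ht' := Finset.mem_range.mp ht
          have : ∀ b, fa (m' + 1) x c t b * fb m' z c t b =
              rho x.1 (x.2 t) c b * rho c b z.1 (z.2 t) := by
            intro b
            rw [fa, if_pos (by omega), fb, if_pos ht']
          simp_rw [this]
          rw [rho_rho]; ring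
        have h2 : ∀ b, fa (m' + 1) x c m' b * fb m' z c m' b =
            rho x.1 (x.2 m') c b * nu c b z.1 (z.2 m') := by
          intro b
          rw [fa, if_pos (by omega), fb, if_neg (lt_irrefl _), if_pos rfl]
        have h3 : ∀ b, fa (m' + 1) x c (m' + 1) b * fb m' z c (m' + 1) b =
            nu x.1 (x.2 (m' + 1)) c b := by
          intro b
          rw [fa, if_neg (lt_irrefl _), if_pos rfl, fb, if_neg (by omega), if_neg (by omega),
            mul_one]
        rw [h1]
        simp_rw [h2, h3]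
        ring
      simp_rw [this]
      rw [← Finset.mul_sum, rho_nu_nu, mul_zero]

end Pool.Agent.Lib.MP_65c995_pr
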