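import Mathlib
import Pool.Agent.Lib.MP_65c995_pr.Chain

/-! Stationarity and the Markov property of the two-sided chain. -/

open MeasureTheory ProbabilityTheory

namespace Pool.Agent.Lib.MP_65c995_pr

/-- Shift by `n` on two-sided sequences. -/
def shn {S : Type} (n : ℤ) (z : ℤ → S) : ℤ → S := fun i => z (i + n)

lemma measurable_shn {S : Type} [MeasurableSpace S] (n : ℤ) :
    Measurable (shn n : (ℤ → S) → (ℤ → S)) := by
  rw [measurable_pi_iff]
  intro i
  exact measurable_pi_apply (i + n)

lemma map_shn {S : Type} [MeasurableSpace S] (P : Measure (ℤ → S))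
    (h : P.map (shn 1) = P) (n : ℤ) : P.map (shn n) = P := by
  induction n using Int.induction_on with
  | zero =>
    have : (shn 0 : (ℤ → S) → (ℤ → S)) = id := by
      funext z i; simp [shn]
    rw [this, Measure.map_id]
  | succ n ih =>
    have h2 : (shn ((n : ℤ) + 1) : (ℤ → S) → (ℤ → S)) = shn (n : ℤ) ∘ shn 1 := by
      funext z i; simp [shn, add_assoc]
    rw [h2, ← Measure.map_map (measurable_shn _) (measurable_shn _), h, ih]
  | pred n ih =>
    have h2 : (shn (-(n : ℤ)) : (ℤ → S) → (ℤ → S)) = shn (-(n : ℤ) - 1) ∘ shn 1 := by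
      funext z i
      simp only [shn, Function.comp_apply]
      congr 1
      ring
    rw [h2, ← Measure.map_map (measurable_shn _) (measurable_shn _), h] at ih
    exact ih

section

variable {S E : Type} [MeasurableSpace S] [MeasurableSpace E]

/-- The whole trajectory as a random variable. -/
def traj (F G : S → E → S) (ω : Om S E) : ℤ → S := fun i => proc F G i ω

lemma measurable_traj (F G : S → E → S)
    (hF : Measurable (Function.uncurry F)) (hG : Measurable (Function.uncurry G)) :
    Measurable (traj F G : Om S E → _) := by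
  rw [measurable_pi_iff]
  intro i
  exact measurable_proc F G hF hG i

lemma stat_all (π : Measure S) [IsProbabilityMeasure π] (ν : Measure E) [IsProbabilityMeasure ν]
    (κ κ' : Kernel S S) [IsMarkovKernel κ] [IsMarkovKernel κ'] (F G : S → E → S)
    (hF : Measurable (Function.uncurry F)) (hFκ : ∀ a, ν.map (F a) = κ a)
    (hG : Measurable (Function.uncurry G)) (hGκ : ∀ a, ν.map (G a) = κ' a)
    (hrev : (π ⊗ₘ κ).map Prod.swap = π ⊗ₘ κ') (n : ℤ) :
    (omLaw π ν).map (fun ω (i : ℤ) => proc F G (i + n) ω) =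
      (omLaw π ν).map (fun ω (i : ℤ) => proc F G i ω) := by
  have h1 := stat_one π ν κ κ' F G hF hFκ hG hGκ hrev
  have hm := measurable_traj F G hF hG
  have h2 : ((omLaw π ν).map (traj F G)).map (shn 1) = (omLaw π ν).map (traj F G) := by
    rw [Measure.map_map (measurable_shn 1) hm]
    exact h1
  have h3 := map_shn _ h2 n
  rw [Measure.map_map (measurable_shn n) hm] at h3
  exact h3

/-- Key identity for the Markov property at time `0`. -/
lemma markov_zero (π : Measure S) [IsProbabilityMeasure π] (ν : Measure E)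
    [IsProbabilityMeasure ν]
    (κ : Kernel S S) [IsMarkovKernel κ] (F G : S → E → S)
    (hF : Measurable (Function.uncurry F)) (hFκ : ∀ a, ν.map (F a) = κ a)
    (hG : Measurable (Function.uncurry G))
    (D : Set (ℤ → S)) (hD : MeasurableSet D)
    (hD0 : ∀ z z' : ℤ → S, (∀ i ≤ 0, z i = z' i) → z ∈ D → z' ∈ D)
    (f : S → ENNReal) (hf : Measurable f) :
    ∫⁻ ω, D.indicator (fun _ => (1 : ENNReal)) (traj F G ω) * f (proc F G 1 ω) ∂(omLaw π ν) =
    ∫⁻ ω, D.indicator (fun _ => (1 : ENNReal)) (traj F G ω) *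
      (∫⁻ y, f y ∂(κ (proc F G 0 ω))) ∂(omLaw π ν) := by
  have hm := measurable_traj F G hF hG
  have hDm : Measurable (D.indicator (fun _ => (1 : ENNReal))) := measurable_const.indicator hD
  have hind : ∀ (p : S × (ℕ → E)) (u u' : ℕ → E),
      D.indicator (fun _ => (1 : ENNReal)) (traj F G (p, u)) =
      D.indicator (fun _ => (1 : ENNReal)) (traj F G (p, u')) := by
    intro p u u'
    have hz : ∀ i ≤ (0 : ℤ), traj F G (p, u) i = traj F G (p, u') i := by
      intro i hi
      cases i with
      | ofNat n =>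
        have : n = 0 := by
          have : (n : ℤ) ≤ 0 := hi
          omega
        subst this
        rfl
      | negSucc n => rfl
    by_cases h : traj F G (p, u) ∈ D
    · rw [Set.indicator_of_mem h, Set.indicator_of_mem (hD0 _ _ hz h)]
    · have h' : traj F G (p, u') ∉ D := fun h' => h (hD0 _ _ (fun i hi => (hz i hi).symm) h')
      rw [Set.indicator_of_notMem h, Set.indicator_of_notMem h']
  have hker : Measurable (fun x : S => ∫⁻ y, f y ∂(κ x)) := hf.lintegral_kernel
  have hA : Measurable (fun ω : Om S E =>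
      D.indicator (fun _ => (1 : ENNReal)) (traj F G ω) * f (proc F G 1 ω)) :=
    (hDm.comp hm).mul (hf.comp (measurable_proc F G hF hG 1))
  have hB : Measurable (fun ω : Om S E =>
      D.indicator (fun _ => (1 : ENNReal)) (traj F G ω) * (∫⁻ y, f y ∂(κ (proc F G 0 ω)))) :=
    (hDm.comp hm).mul (hker.comp (measurable_proc F G hF hG 0))
  unfold omLaw
  rw [lintegral_prod _ hA.aemeasurable, lintegral_prod _ hB.aemeasurable]
  · refine lintegral_congr fun p => ?_
    -- a default forward noise is not needed: rewrite the indicator inside the integral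
    have e1 : ∀ u : ℕ → E, D.indicator (fun _ => (1 : ENNReal)) (traj F G (p, u)) *
        f (proc F G 1 (p, u)) =
        D.indicator (fun _ => (1 : ENNReal)) (traj F G (p, p.2)) * f (F p.1 (u 0)) := by
      intro u
      rw [hind p u p.2]
      rfl
    have e2 : ∀ u : ℕ → E, D.indicator (fun _ => (1 : ENNReal)) (traj F G (p, u)) *
        (∫⁻ y, f y ∂(κ (proc F G 0 (p, u)))) =
        D.indicator (fun _ => (1 : ENNReal)) (traj F G (p, p.2)) * (∫⁻ y, f y ∂(κ p.1)) := by
      intro u
      rw [hind p u p.2]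
      rfl
    simp_rw [e1, e2]
    have hx : Measurable (fun e : E => F p.1 e) := hF.comp (measurable_const.prodMk measurable_id)
    have hu : Measurable (fun u : ℕ → E => f (F p.1 (u 0))) :=
      (hf.comp hx).comp (measurable_pi_apply 0)
    rw [lintegral_const_mul _ hu, lintegral_const, measure_univ, mul_one, ← hFκ p.1,
      lintegral_map hf hx]
    congr 1
    have := (measurePreserving_eval_infinitePi (fun _ : ℕ => ν) 0).lintegral_comp (hf.comp hx)
    exact this

/-- Key identity for the Markov property at time `n`. -/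
lemma markov_int (π : Measure S) [IsProbabilityMeasure π] (ν : Measure E)
    [IsProbabilityMeasure ν]
    (κ κ' : Kernel S S) [IsMarkovKernel κ] [IsMarkovKernel κ'] (F G : S → E → S)
    (hF : Measurable (Function.uncurry F)) (hFκ : ∀ a, ν.map (F a) = κ a)
    (hG : Measurable (Function.uncurry G)) (hGκ : ∀ a, ν.map (G a) = κ' a)
    (hrev : (π ⊗ₘ κ).map Prod.swap = π ⊗ₘ κ') (n : ℤ)
    (D : Set (ℤ → S)) (hD : MeasurableSet D)
    (hD0 : ∀ z z' : ℤ → S, (∀ i ≤ 0, z i = z' i) → z ∈ D → z' ∈ D)
    (f : S → ENNReal) (hf : Measurable f) :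
    ∫⁻ ω, D.indicator (fun _ => (1 : ENNReal)) (fun i : ℤ => proc F G (i + n) ω) *
      f (proc F G (1 + n) ω) ∂(omLaw π ν) =
    ∫⁻ ω, D.indicator (fun _ => (1 : ENNReal)) (fun i : ℤ => proc F G (i + n) ω) *
      (∫⁻ y, f y ∂(κ (proc F G (0 + n) ω))) ∂(omLaw π ν) := by
  have hDm : Measurable (D.indicator (fun _ => (1 : ENNReal))) := measurable_const.indicator hD
  have hker : Measurable (fun x : S => ∫⁻ y, f y ∂(κ x)) := hf.lintegral_kernel
  have hst := stat_all π ν κ κ' F G hF hFκ hG hGκ hrev n
  have hmn : Measurable (fun (ω : Om S E) (i : ℤ) => proc F G (i + n) ω) := by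
    rw [measurable_pi_iff]
    intro i
    exact measurable_proc F G hF hG (i + n)
  have hm0 : Measurable (fun (ω : Om S E) (i : ℤ) => proc F G i ω) := measurable_traj F G hF hG
  have hA : Measurable (fun z : ℤ → S => D.indicator (fun _ => (1 : ENNReal)) z * f (z 1)) :=
    hDm.mul (hf.comp (measurable_pi_apply 1))
  have hB : Measurable (fun z : ℤ → S =>
      D.indicator (fun _ => (1 : ENNReal)) z * (∫⁻ y, f y ∂(κ (z 0)))) :=
    hDm.mul (hker.comp (measurable_pi_apply 0))
  have h0 := markov_zero π ν κ F G hF hFκ hG D hD hD0 f hf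
  calc ∫⁻ ω, D.indicator (fun _ => (1 : ENNReal)) (fun i : ℤ => proc F G (i + n) ω) *
      f (proc F G (1 + n) ω) ∂(omLaw π ν)
      = ∫⁻ z, D.indicator (fun _ => (1 : ENNReal)) z * f (z 1)
          ∂((omLaw π ν).map (fun ω (i : ℤ) => proc F G (i + n) ω)) := by
        rw [lintegral_map hA hmn]
    _ = ∫⁻ z, D.indicator (fun _ => (1 : ENNReal)) z * f (z 1)
          ∂((omLaw π ν).map (fun ω (i : ℤ) => proc F G i ω)) := by rw [hst]
    _ = ∫⁻ ω, D.indicator (fun _ => (1 : ENNReal)) (traj F G ω) * f (proc F G 1 ω)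
          ∂(omLaw π ν) := by
        rw [lintegral_map hA hm0]; rfl
    _ = ∫⁻ ω, D.indicator (fun _ => (1 : ENNReal)) (traj F G ω) *
          (∫⁻ y, f y ∂(κ (proc F G 0 ω))) ∂(omLaw π ν) := h0
    _ = ∫⁻ z, D.indicator (fun _ => (1 : ENNReal)) z * (∫⁻ y, f y ∂(κ (z 0)))
          ∂((omLaw π ν).map (fun ω (i : ℤ) => proc F G i ω)) := by
        rw [lintegral_map hB hm0]; rfl
    _ = ∫⁻ z, D.indicator (fun _ => (1 : ENNReal)) z * (∫⁻ y, f y ∂(κ (z 0)))
          ∂((omLaw π ν).map (fun ω (i : ℤ) => proc F G (i + n) ω)) := by rw [hst]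
    _ = _ := by
        rw [lintegral_map hB hmn]

end

end Pool.Agent.Lib.MP_65c995_pr
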