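import Mathlib
import Pool.Agent.Lib.MP_65c995_pr.Stationary

/-! Existence of the two-sided stationary Markov process of a kernel. -/

open MeasureTheory ProbabilityTheory

namespace Pool.Agent.Lib.MP_65c995_pr

/-- Characterisation of the conditional expectation of an indicator through `lintegral`. -/
lemma condExp_aux {Ω : Type} {m m₀ : MeasurableSpace Ω} (μ : Measure Ω) [IsProbabilityMeasure μ]
    (hm : m ≤ m₀) (T : Set Ω) (hT : MeasurableSet T) (g : Ω → ENNReal) (hg : Measurable[m] g)
    (hg1 : ∀ ω, g ω ≤ 1)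
    (h : ∀ s, MeasurableSet[m] s → ∫⁻ ω in s, g ω ∂μ = μ (s ∩ T)) :
    (fun ω => (g ω).toReal) =ᵐ[μ] condExp m μ (T.indicator fun _ => (1 : ℝ)) := by
  have hg' : Measurable g := hg.mono hm le_rfl
  have hgb : Integrable (fun ω : Ω => (g ω).toReal) μ := by
    refine Integrable.of_bound hg'.ennreal_toReal.aestronglyMeasurable 1
      (Filter.Eventually.of_forall ?_)
    intro ω
    rw [Real.norm_of_nonneg ENNReal.toReal_nonneg]
    exact ENNReal.toReal_mono ENNReal.one_ne_top (hg1 ω)
  refine ae_eq_condExp_of_forall_setIntegral_eq hm ?_ ?_ ?_ ?_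
  · exact (integrable_const (1 : ℝ)).indicator hT
  · intro s hs _
    exact hgb.integrableOn
  · intro s hs _
    have hs' : MeasurableSet s := hm s hs
    rw [setIntegral_indicator hT, setIntegral_const, smul_eq_mul, mul_one, measureReal_def,
      ← h s hs, ← integral_toReal]
    · exact hg'.aemeasurable
    · exact Filter.Eventually.of_forall fun ω => lt_of_le_of_lt (hg1 ω) ENNReal.one_lt_top
  · exact (hg.ennreal_toReal.stronglyMeasurable).aestronglyMeasurable

section

variable {S E : Type} [MeasurableSpace S] [MeasurableSpace E]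

omit [MeasurableSpace E] in
lemma past_eq_comap (X : ℤ → Om S E → S) (n : ℤ) :
    (⨆ (m : ℤ) (_ : m ≤ n), MeasurableSpace.comap (X m) inferInstance) =
    MeasurableSpace.comap (fun ω (m : {m : ℤ // m ≤ n}) => X m.1 ω) MeasurableSpace.pi := by
  unfold MeasurableSpace.pi
  rw [MeasurableSpace.comap_iSup, iSup_subtype']
  congr 1
  funext m
  rw [MeasurableSpace.comap_comp]
  rfl

lemma markov_set (π : Measure S) [IsProbabilityMeasure π] (ν : Measure E)
    [IsProbabilityMeasure ν]
    (κ κ' : Kernel S S) [IsMarkovKernel κ] [IsMarkovKernel κ'] (F G : S → E → S)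
    (hF : Measurable (Function.uncurry F)) (hFκ : ∀ a, ν.map (F a) = κ a)
    (hG : Measurable (Function.uncurry G)) (hGκ : ∀ a, ν.map (G a) = κ' a)
    (hrev : (π ⊗ₘ κ).map Prod.swap = π ⊗ₘ κ') (n : ℤ) (s : Set (Om S E))
    (hs : MeasurableSet[⨆ (m : ℤ) (_ : m ≤ n), MeasurableSpace.comap (proc F G m) inferInstance] s)
    (f : S → ENNReal) (hf : Measurable f) :
    ∫⁻ ω in s, f (proc F G (n + 1) ω) ∂(omLaw π ν) =
    ∫⁻ ω in s, (∫⁻ y, f y ∂(κ (proc F G n ω))) ∂(omLaw π ν) := by
  rw [past_eq_comap] at hs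
  obtain ⟨D, hD, rfl⟩ := hs
  set D' : Set (ℤ → S) :=
    (fun (z : ℤ → S) (m : {m : ℤ // m ≤ n}) => z (m.1 - n)) ⁻¹' D with hD'
  have hD'm : MeasurableSet D' := by
    apply MeasurableSet.preimage hD
    rw [measurable_pi_iff]
    intro m
    exact measurable_pi_apply _
  have hD'0 : ∀ z z' : ℤ → S, (∀ i ≤ 0, z i = z' i) → z ∈ D' → z' ∈ D' := by
    intro z z' h hz
    have e : (fun (m : {m : ℤ // m ≤ n}) => z' (m.1 - n)) =
        (fun (m : {m : ℤ // m ≤ n}) => z (m.1 - n)) := by
      funext m
      exact (h _ (by have := m.2; omega)).symm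
    change (fun (m : {m : ℤ // m ≤ n}) => z' (m.1 - n)) ∈ D
    rw [e]
    exact hz
  have hpre : (fun (ω : Om S E) (m : {m : ℤ // m ≤ n}) => proc F G m.1 ω) ⁻¹' D =
      (fun (ω : Om S E) (i : ℤ) => proc F G (i + n) ω) ⁻¹' D' := by
    ext ω
    simp only [Set.mem_preimage, hD', sub_add_cancel]
  have hsm : MeasurableSet ((fun (ω : Om S E) (i : ℤ) => proc F G (i + n) ω) ⁻¹' D') := by
    apply MeasurableSet.preimage hD'm
    rw [measurable_pi_iff]
    intro i
    exact measurable_proc F G hF hG (i + n)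
  have h := markov_int π ν κ κ' F G hF hFκ hG hGκ hrev n D' hD'm hD'0 f hf
  rw [hpre, ← lintegral_indicator hsm, ← lintegral_indicator hsm]
  have e : ∀ (g : Om S E → ENNReal),
      (fun ω => ((fun (ω : Om S E) (i : ℤ) => proc F G (i + n) ω) ⁻¹' D').indicator g ω) =
      fun ω => D'.indicator (fun _ => (1 : ENNReal)) (fun i : ℤ => proc F G (i + n) ω) * g ω := by
    intro g
    funext ω
    by_cases hω : (fun i : ℤ => proc F G (i + n) ω) ∈ D'
    · rw [Set.indicator_of_mem hω, Set.indicator_of_mem (by exact hω), one_mul]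
    · rw [Set.indicator_of_notMem hω, Set.indicator_of_notMem (by exact hω), zero_mul]
  rw [e, e]
  rw [add_comm n 1]
  rw [h, zero_add]

lemma markov_condExp (π : Measure S) [IsProbabilityMeasure π] (ν : Measure E)
    [IsProbabilityMeasure ν]
    (κ κ' : Kernel S S) [IsMarkovKernel κ] [IsMarkovKernel κ'] (F G : S → E → S)
    (hF : Measurable (Function.uncurry F)) (hFκ : ∀ a, ν.map (F a) = κ a)
    (hG : Measurable (Function.uncurry G)) (hGκ : ∀ a, ν.map (G a) = κ' a)
    (hrev : (π ⊗ₘ κ).map Prod.swap = π ⊗ₘ κ') (n : ℤ) (A : Set S) (hA : MeasurableSet A) :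
    condExp (⨆ (m : ℤ) (_ : m ≤ n), MeasurableSpace.comap (proc F G m) inferInstance)
      (omLaw π ν) (Set.indicator (proc F G (n + 1) ⁻¹' A) (fun _ => (1 : ℝ)))
    =ᵐ[omLaw π ν] condExp (MeasurableSpace.comap (proc F G n) inferInstance) (omLaw π ν)
      (Set.indicator (proc F G (n + 1) ⁻¹' A) (fun _ => (1 : ℝ))) := by
  have hle : (⨆ (m : ℤ) (_ : m ≤ n), MeasurableSpace.comap (proc (E := E) F G m) inferInstance)
      ≤ Prod.instMeasurableSpace := by
    refine iSup₂_le fun i _ => ?_
    exact (measurable_proc F G hF hG i).comap_le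
  have hle' : MeasurableSpace.comap (proc (E := E) F G n) inferInstance ≤
      (⨆ (m : ℤ) (_ : m ≤ n), MeasurableSpace.comap (proc (E := E) F G m) inferInstance) :=
    le_iSup₂_of_le n le_rfl le_rfl
  have hAm : MeasurableSet (proc (E := E) F G (n + 1) ⁻¹' A) :=
    measurable_proc F G hF hG (n + 1) hA
  have hκm : Measurable (fun x : S => κ x A) := κ.measurable_coe hA
  have h3 : ∀ ω : Om S E, ∫⁻ y, (A.indicator (fun _ => (1 : ENNReal))) y
      ∂(κ (proc F G n ω)) = κ (proc F G n ω) A := by
    intro ω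
    rw [lintegral_indicator hA, lintegral_const, Measure.restrict_apply MeasurableSet.univ,
      one_mul, Set.univ_inter]
  have h4 : ∀ s, MeasurableSet[⨆ (m : ℤ) (_ : m ≤ n),
      MeasurableSpace.comap (proc (E := E) F G m) inferInstance] s →
      ∫⁻ ω in s, κ (proc F G n ω) A ∂(omLaw π ν) =
        (omLaw π ν) (s ∩ proc F G (n + 1) ⁻¹' A) := by
    intro s hs
    have h1 := markov_set π ν κ κ' F G hF hFκ hG hGκ hrev n s hs
      (A.indicator (fun _ => (1 : ENNReal))) (measurable_const.indicator hA)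
    have h2 : ∫⁻ ω in s, (A.indicator (fun _ => (1 : ENNReal))) (proc F G (n + 1) ω)
        ∂(omLaw π ν) = (omLaw π ν) (s ∩ proc F G (n + 1) ⁻¹' A) := by
      have : (fun ω : Om S E => (A.indicator (fun _ => (1 : ENNReal))) (proc F G (n + 1) ω)) =
          (proc F G (n + 1) ⁻¹' A).indicator (fun _ => 1) := by
        funext ω; rfl
      rw [this, lintegral_indicator hAm, Measure.restrict_restrict hAm, lintegral_const,
        Measure.restrict_apply MeasurableSet.univ, one_mul, Set.univ_inter, Set.inter_comm]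
    rw [h2] at h1
    simp_rw [h3] at h1
    exact h1.symm
  have hmeas : Measurable[MeasurableSpace.comap (proc (E := E) F G n) inferInstance]
      (fun ω : Om S E => κ (proc F G n ω) A) := by
    have h1 : Measurable[MeasurableSpace.comap (proc (E := E) F G n) inferInstance]
        (proc (E := E) F G n) := by
      rw [measurable_iff_comap_le]
    exact hκm.comp h1
  have a1 := condExp_aux (omLaw π ν) hle (proc (E := E) F G (n + 1) ⁻¹' A) hAm
    (fun ω : Om S E => κ (proc F G n ω) A) (hmeas.mono hle' le_rfl) (fun ω => prob_le_one) h4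
  have a2 := condExp_aux (omLaw π ν) (hle'.trans hle) (proc (E := E) F G (n + 1) ⁻¹' A) hAm
    (fun ω : Om S E => κ (proc F G n ω) A) hmeas (fun ω => prob_le_one)
    (fun s hs => h4 s (hle' s hs))
  exact a1.symm.trans a2

end

theorem exists_process {S : Type} [MeasurableSpace S] [StandardBorelSpace S] [Nonempty S]
    (π : Measure S) [IsProbabilityMeasure π] (κ κ' : Kernel S S) [IsMarkovKernel κ]
    [IsMarkovKernel κ'] (hrev : (π ⊗ₘ κ).map Prod.swap = π ⊗ₘ κ')
    (h2 : ∀ (x : S) (B : Set S), MeasurableSet B → ∫⁻ y, κ y B ∂(κ x) = π B)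
    (C : Set (S × S)) (hC : MeasurableSet C) (hC0 : ∀ x, κ x {y | (x, y) ∈ C} = 0) :
    ∃ (Ω : Type) (_ : MeasurableSpace Ω) (μ : Measure Ω) (X : ℤ → Ω → S),
      IsProbabilityMeasure μ ∧
      (∀ i, Measurable (X i)) ∧
      (∀ n : ℤ, μ.map (fun ω (i : ℤ) => X (i + n) ω) = μ.map (fun ω (i : ℤ) => X i ω)) ∧
      (∀ (n : ℤ) (A : Set S), MeasurableSet A →
        condExp (⨆ (m : ℤ) (_ : m ≤ n), MeasurableSpace.comap (X m) inferInstance) μ
          (Set.indicator (X (n + 1) ⁻¹' A) (fun _ => (1 : ℝ)))
        =ᵐ[μ] condExp (MeasurableSpace.comap (X n) inferInstance) μ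
          (Set.indicator (X (n + 1) ⁻¹' A) (fun _ => (1 : ℝ)))) ∧
      IndepFun (X 0) (X 2) μ ∧
      ∀ᵐ ω ∂μ, (X 0 ω, X 1 ω) ∉ C := by
  obtain ⟨F, hF, hFκ⟩ := Kernel.exists_measurable_map_eq_unitInterval κ
  obtain ⟨G, hG, hGκ⟩ := Kernel.exists_measurable_map_eq_unitInterval κ'
  set ν : Measure unitInterval := volume with hν
  refine ⟨Om S unitInterval, inferInstance, omLaw π ν, proc F G, inferInstance,
    measurable_proc F G hF hG, stat_all π ν κ κ' F G hF hFκ hG hGκ hrev, ?_, ?_, ?_⟩
  · intro n A hA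
    exact markov_condExp π ν κ κ' F G hF hFκ hG hGκ hrev n A hA
  · rw [indepFun_iff_measure_inter_preimage_eq_mul]
    intro A B hA hB
    have hA0 : MeasurableSet[⨆ (m : ℤ) (_ : m ≤ 0),
        MeasurableSpace.comap (proc (E := unitInterval) F G m) inferInstance]
        (proc (E := unitInterval) F G 0 ⁻¹' A) := by
      have : MeasurableSpace.comap (proc (E := unitInterval) F G 0) inferInstance ≤
        ⨆ (m : ℤ) (_ : m ≤ 0),
        MeasurableSpace.comap (proc (E := unitInterval) F G m) inferInstance :=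
        le_iSup₂_of_le 0 le_rfl le_rfl
      exact this _ ⟨A, hA, rfl⟩
    have hA1 : MeasurableSet[⨆ (m : ℤ) (_ : m ≤ 1),
        MeasurableSpace.comap (proc (E := unitInterval) F G m) inferInstance]
        (proc (E := unitInterval) F G 0 ⁻¹' A) := by
      have : MeasurableSpace.comap (proc (E := unitInterval) F G 0) inferInstance ≤
        ⨆ (m : ℤ) (_ : m ≤ 1),
        MeasurableSpace.comap (proc (E := unitInterval) F G m) inferInstance :=
        le_iSup₂_of_le 0 (by norm_num) le_rfl
      exact this _ ⟨A, hA, rfl⟩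
    have hAm : MeasurableSet (proc (E := unitInterval) F G 0 ⁻¹' A) :=
      measurable_proc F G hF hG 0 hA
    have hind : ∀ (B : Set S), MeasurableSet B → ∀ x : S,
        ∫⁻ y, (B.indicator (fun _ => (1 : ENNReal))) y ∂(κ x) = κ x B := by
      intro B hB x
      rw [lintegral_indicator hB, lintegral_const, Measure.restrict_apply MeasurableSet.univ,
        one_mul, Set.univ_inter]
    have key : ∀ (A' : Set (Om S unitInterval)), MeasurableSet A' →
        MeasurableSet[⨆ (m : ℤ) (_ : m ≤ 0),
        MeasurableSpace.comap (proc (E := unitInterval) F G m) inferInstance] A' →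
        MeasurableSet[⨆ (m : ℤ) (_ : m ≤ 1),
        MeasurableSpace.comap (proc (E := unitInterval) F G m) inferInstance] A' →
        (omLaw π ν) (A' ∩ proc F G 2 ⁻¹' B) = (omLaw π ν) A' * π B := by
      intro A' hA'm hA'0 hA'1
      have s1 := markov_set π ν κ κ' F G hF hFκ hG hGκ hrev 1 A' hA'1
        (B.indicator (fun _ => (1 : ENNReal))) (measurable_const.indicator hB)
      simp_rw [hind B hB] at s1
      have hκB : Measurable (fun x : S => κ x B) := κ.measurable_coe hB
      have s0 := markov_set π ν κ κ' F G hF hFκ hG hGκ hrev 0 A' hA'0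
        (fun x => κ x B) hκB
      simp_rw [h2 _ B hB] at s0
      rw [zero_add] at s0
      rw [s0] at s1
      have hBm : MeasurableSet (proc (E := unitInterval) F G 2 ⁻¹' B) :=
        measurable_proc F G hF hG 2 hB
      have h11 : (1 + 1 : ℤ) = 2 := by norm_num
      rw [h11] at s1
      have e : (fun ω : Om S unitInterval => (B.indicator (fun _ => (1 : ENNReal)))
          (proc F G 2 ω)) = (proc F G 2 ⁻¹' B).indicator (fun _ => 1) := by
        funext ω; rfl
      rw [e, lintegral_indicator hBm, Measure.restrict_restrict hBm, lintegral_const,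
        Measure.restrict_apply MeasurableSet.univ, one_mul, Set.univ_inter, Set.inter_comm,
        lintegral_const, Measure.restrict_apply MeasurableSet.univ, Set.univ_inter] at s1
      rw [s1, mul_comm]
    rw [key _ hAm hA0 hA1]
    have hB' := key Set.univ MeasurableSet.univ MeasurableSet.univ MeasurableSet.univ
    rw [Set.univ_inter, measure_univ, one_mul] at hB'
    rw [hB']
  · have hX : Measurable (fun ω : Om S unitInterval => (proc F G 0 ω, proc F G 1 ω)) :=
      (measurable_proc F G hF hG 0).prodMk (measurable_proc F G hF hG 1)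
    rw [ae_iff]
    simp only [not_not]
    have hset : {ω : Om S unitInterval | (proc F G 0 ω, proc F G 1 ω) ∈ C} =
        (fun ω : Om S unitInterval => (proc F G 0 ω, proc F G 1 ω)) ⁻¹' C := rfl
    rw [hset, ← lintegral_indicator_one (hX hC)]
    unfold omLaw
    have hI : Measurable (((fun ω : Om S unitInterval => (proc F G 0 ω, proc F G 1 ω)) ⁻¹' C).indicator
      (1 : Om S unitInterval → ENNReal)) := measurable_one.indicator (hX hC)
    rw [lintegral_prod _ hI.aemeasurable]
    rw [lintegral_eq_zero_iff (Measurable.lintegral_prod_right' hI)]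
    refine Filter.Eventually.of_forall fun p => ?_
    change ∫⁻ u, _ ∂(iid ν) = 0
    have hx : Measurable (fun e : unitInterval => F p.1 e) :=
      hF.comp (measurable_const.prodMk measurable_id)
    have hCx : MeasurableSet {y | (p.1, y) ∈ C} := by
      exact (measurable_const.prodMk measurable_id) hC
    have e : ∀ u : ℕ → unitInterval,
        ((fun ω : Om S unitInterval => (proc F G 0 ω, proc F G 1 ω)) ⁻¹' C).indicator
        (1 : Om S unitInterval → ENNReal) (p, u) =
        ((fun e : unitInterval => F p.1 e) ⁻¹' {y | (p.1, y) ∈ C}).indicator 1 (u 0) := by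
      intro u
      rfl
    simp_rw [e]
    have hmp := (measurePreserving_eval_infinitePi (fun _ : ℕ => ν) 0).lintegral_comp
      (f := ((fun e : unitInterval => F p.1 e) ⁻¹' {y | (p.1, y) ∈ C}).indicator 1)
      (measurable_one.indicator (hx hCx))
    have : ∫⁻ u, ((fun e : unitInterval => F p.1 e) ⁻¹' {y | (p.1, y) ∈ C}).indicator
        (1 : unitInterval → ENNReal) (u 0) ∂(iid ν) = 0 := by
      refine hmp.trans ?_
      rw [lintegral_indicator_one (hx hCx), ← Measure.map_apply hx hCx, hFκ]
      exact hC0 p.1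
    exact this

end Pool.Agent.Lib.MP_65c995_pr
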