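import Mathlib
import Pool.Agent.Lib.MP_65c995_pr.Process

/-! The two-sided chain: the Markov property for all future events, and finite dependence. -/

open MeasureTheory ProbabilityTheory

namespace Pool.Agent.Lib.MP_65c995_pr

section

variable {S E : Type} [MeasurableSpace S] [MeasurableSpace E]

/-- The forward chain as a sequence. -/
def fwd (F : S → E → S) (p : S × (ℕ → E)) : ℕ → S := fun n => chain F p.1 p.2 n

lemma measurable_fwd (F : S → E → S) (hF : Measurable (Function.uncurry F)) :
    Measurable (fwd F : S × (ℕ → E) → ℕ → S) := by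
  rw [measurable_pi_iff]
  intro n
  exact measurable_chain F hF n

/-- Expectation of a functional of the forward chain started at `x`. -/
noncomputable def Ex (F : S → E → S) (ν : Measure E) (Φ : (ℕ → S) → ENNReal) (x : S) : ENNReal :=
  ∫⁻ u, Φ (fwd F (x, u)) ∂(iid ν)

lemma measurable_Ex (F : S → E → S) (hF : Measurable (Function.uncurry F)) (ν : Measure E)
    [IsProbabilityMeasure ν] (Φ : (ℕ → S) → ENNReal) (hΦ : Measurable Φ) :
    Measurable (Ex F ν Φ) :=
  Measurable.lintegral_prod_right' (hΦ.comp (measurable_fwd F hF))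

/-- Dropping the first letter of a sequence of states. -/
def shS (z : ℕ → S) : ℕ → S := fun k => z (k + 1)

lemma measurable_shS : Measurable (shS : (ℕ → S) → ℕ → S) := by
  rw [measurable_pi_iff]
  intro n
  exact measurable_pi_apply (n + 1)

lemma Ex_shift (F : S → E → S) (hF : Measurable (Function.uncurry F)) (ν : Measure E)
    [IsProbabilityMeasure ν] (κ : Kernel S S) (hFκ : ∀ a, ν.map (F a) = κ a)
    (Φ : (ℕ → S) → ENNReal) (hΦ : Measurable Φ) (x : S) :
    Ex F ν (fun z => Φ (shS z)) x = ∫⁻ y, Ex F ν Φ y ∂(κ x) := by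
  have hx : Measurable (fun e : E => F x e) := hF.comp (measurable_const.prodMk measurable_id)
  rw [← hFκ x, lintegral_map (measurable_Ex F hF ν Φ hΦ) hx]
  unfold Ex
  have hm : Measurable (fun p : E × (ℕ → E) => Φ (fwd F (F x p.1, p.2))) :=
    (hΦ.comp (measurable_fwd F hF)).comp ((hx.comp measurable_fst).prodMk measurable_snd)
  have h := lintegral_iid_split ν (fun p : E × (ℕ → E) => Φ (fwd F (F x p.1, p.2))) hm
  rw [← h]
  refine lintegral_congr fun u => ?_
  have e : shS (fwd F (x, u)) = fwd F (F x (u 0), tailSeq u) := by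
    funext k
    exact chain_succ_eq F x u k
  change Φ (shS (fwd F (x, u))) = Φ (fwd F (F x (u 0), tailSeq u))
  rw [e]

lemma Ex_shift_two (π : Measure S) (F : S → E → S) (hF : Measurable (Function.uncurry F))
    (ν : Measure E) [IsProbabilityMeasure ν] (κ : Kernel S S) [IsMarkovKernel κ]
    (hFκ : ∀ a, ν.map (F a) = κ a)
    (h2 : ∀ (x : S) (B : Set S), MeasurableSet B → ∫⁻ y, κ y B ∂(κ x) = π B)
    (Φ : (ℕ → S) → ENNReal) (hΦ : Measurable Φ) (x : S) :
    Ex F ν (fun z => Φ (shS (shS z))) x = ∫⁻ y, Ex F ν Φ y ∂π := by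
  have h1 : Ex F ν (fun z => Φ (shS (shS z))) x =
      ∫⁻ y, Ex F ν (fun z => Φ (shS z)) y ∂(κ x) :=
    Ex_shift F hF ν κ hFκ (fun z => Φ (shS z)) (hΦ.comp measurable_shS) x
  rw [h1]
  have h3 : ∀ y, Ex F ν (fun z => Φ (shS z)) y = ∫⁻ w, Ex F ν Φ w ∂(κ y) :=
    fun y => Ex_shift F hF ν κ hFκ Φ hΦ y
  simp_rw [h3]
  have hb : Measure.bind (κ x) κ = π := by
    ext B hB
    rw [Measure.bind_apply hB κ.measurable.aemeasurable, h2 x B hB]
  rw [← hb, Measure.lintegral_bind κ.measurable.aemeasurable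
    (measurable_Ex F hF ν Φ hΦ).aemeasurable]

/-- The Markov property at time `0` for functionals of the whole future. -/
lemma markov_zero_fun (π : Measure S) [IsProbabilityMeasure π] (ν : Measure E)
    [IsProbabilityMeasure ν] (F G : S → E → S)
    (hF : Measurable (Function.uncurry F))
    (hG : Measurable (Function.uncurry G))
    (D : Set (ℤ → S)) (hD : MeasurableSet D)
    (hD0 : ∀ z z' : ℤ → S, (∀ i ≤ 0, z i = z' i) → z ∈ D → z' ∈ D)
    (Φ : (ℕ → S) → ENNReal) (hΦ : Measurable Φ) :
    ∫⁻ ω, D.indicator (fun _ => (1 : ENNReal)) (traj F G ω) *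
      Φ (fun k : ℕ => traj F G ω (k : ℤ)) ∂(omLaw π ν) =
    ∫⁻ ω, D.indicator (fun _ => (1 : ENNReal)) (traj F G ω) *
      Ex F ν Φ (traj F G ω 0) ∂(omLaw π ν) := by
  have hm := measurable_traj F G hF hG
  have hDm : Measurable (D.indicator (fun _ => (1 : ENNReal))) := measurable_const.indicator hD
  have hind : ∀ (p : S × (ℕ → E)) (u u' : ℕ → E),
      D.indicator (fun _ => (1 : ENNReal)) (traj F G (p, u)) =
      D.indicator (fun _ => (1 : ENNReal)) (traj F G (p, u')) := by
    intro p u u'
    have hz : ∀ i ≤ (0 : ℤ), traj F G (p, u) i = traj F G (p, u') i := by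
      intro i hi
      cases i with
      | ofNat n =>
        have : n = 0 := by
          have : (n : ℤ) ≤ 0 := hi
          omega
        subst this
        rfl
      | negSucc n => rfl
    by_cases h : traj F G (p, u) ∈ D
    · rw [Set.indicator_of_mem h, Set.indicator_of_mem (hD0 _ _ hz h)]
    · have h' : traj F G (p, u') ∉ D := fun h' => h (hD0 _ _ (fun i hi => (hz i hi).symm) h')
      rw [Set.indicator_of_notMem h, Set.indicator_of_notMem h']
  have hres : Measurable (fun z : ℤ → S => fun k : ℕ => z (k : ℤ)) := by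
    rw [measurable_pi_iff]
    intro k
    exact measurable_pi_apply _
  have hA : Measurable (fun ω : Om S E =>
      D.indicator (fun _ => (1 : ENNReal)) (traj F G ω) *
        Φ (fun k : ℕ => traj F G ω (k : ℤ))) :=
    (hDm.comp hm).mul (hΦ.comp (hres.comp hm))
  have hB : Measurable (fun ω : Om S E =>
      D.indicator (fun _ => (1 : ENNReal)) (traj F G ω) * Ex F ν Φ (traj F G ω 0)) :=
    (hDm.comp hm).mul ((measurable_Ex F hF ν Φ hΦ).comp (measurable_proc F G hF hG 0))
  unfold omLaw
  rw [lintegral_prod _ hA.aemeasurable, lintegral_prod _ hB.aemeasurable]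
  refine lintegral_congr fun p => ?_
  have e1 : ∀ u : ℕ → E, D.indicator (fun _ => (1 : ENNReal)) (traj F G (p, u)) *
      Φ (fun k : ℕ => traj F G (p, u) (k : ℤ)) =
      D.indicator (fun _ => (1 : ENNReal)) (traj F G (p, p.2)) * Φ (fwd F (p.1, u)) := by
    intro u
    rw [hind p u p.2]
    rfl
  have e2 : ∀ u : ℕ → E, D.indicator (fun _ => (1 : ENNReal)) (traj F G (p, u)) *
      Ex F ν Φ (traj F G (p, u) 0) =
      D.indicator (fun _ => (1 : ENNReal)) (traj F G (p, p.2)) * Ex F ν Φ p.1 := by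
    intro u
    rw [hind p u p.2]
    rfl
  simp_rw [e1, e2]
  have hu : Measurable (fun u : ℕ → E => Φ (fwd F (p.1, u))) :=
    (hΦ.comp (measurable_fwd F hF)).comp (measurable_const.prodMk measurable_id)
  rw [lintegral_const_mul _ hu, lintegral_const, measure_univ, mul_one]
  rfl

omit [MeasurableSpace E] in
lemma future_eq_comap (X : ℤ → Om S E → S) (n : ℤ) :
    (⨆ (m : ℤ) (_ : n ≤ m), MeasurableSpace.comap (X m) inferInstance) =
    MeasurableSpace.comap (fun ω (k : ℕ) => X (n + k) ω) MeasurableSpace.pi := by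
  unfold MeasurableSpace.pi
  rw [MeasurableSpace.comap_iSup]
  apply le_antisymm
  · refine iSup₂_le fun m hm => ?_
    obtain ⟨k, rfl⟩ := Int.le.dest hm
    refine le_iSup_of_le k ?_
    rw [MeasurableSpace.comap_comp]
    exact le_rfl
  · refine iSup_le fun k => ?_
    rw [MeasurableSpace.comap_comp]
    exact le_iSup₂_of_le (n + k) (by omega) le_rfl

/-- The Markov property at time `n` for functionals of the whole future. -/
lemma markov_fun (π : Measure S) [IsProbabilityMeasure π] (ν : Measure E)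
    [IsProbabilityMeasure ν]
    (κ κ' : Kernel S S) [IsMarkovKernel κ] [IsMarkovKernel κ'] (F G : S → E → S)
    (hF : Measurable (Function.uncurry F)) (hFκ : ∀ a, ν.map (F a) = κ a)
    (hG : Measurable (Function.uncurry G)) (hGκ : ∀ a, ν.map (G a) = κ' a)
    (hrev : (π ⊗ₘ κ).map Prod.swap = π ⊗ₘ κ') (n : ℤ) (s : Set (Om S E))
    (hs : MeasurableSet[⨆ (m : ℤ) (_ : m ≤ n), MeasurableSpace.comap (proc F G m) inferInstance] s)
    (Φ : (ℕ → S) → ENNReal) (hΦ : Measurable Φ) :
    ∫⁻ ω in s, Φ (fun k : ℕ => proc F G (n + k) ω) ∂(omLaw π ν) =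
    ∫⁻ ω in s, Ex F ν Φ (proc F G n ω) ∂(omLaw π ν) := by
  rw [past_eq_comap] at hs
  obtain ⟨D, hD, rfl⟩ := hs
  set D' : Set (ℤ → S) :=
    (fun (z : ℤ → S) (m : {m : ℤ // m ≤ n}) => z (m.1 - n)) ⁻¹' D with hD'
  have hD'm : MeasurableSet D' := by
    apply MeasurableSet.preimage hD
    rw [measurable_pi_iff]
    intro m
    exact measurable_pi_apply _
  have hD'0 : ∀ z z' : ℤ → S, (∀ i ≤ 0, z i = z' i) → z ∈ D' → z' ∈ D' := by
    intro z z' h hz
    have e : (fun (m : {m : ℤ // m ≤ n}) => z' (m.1 - n)) =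
        (fun (m : {m : ℤ // m ≤ n}) => z (m.1 - n)) := by
      funext m
      exact (h _ (by have := m.2; omega)).symm
    change (fun (m : {m : ℤ // m ≤ n}) => z' (m.1 - n)) ∈ D
    rw [e]
    exact hz
  have hpre : (fun (ω : Om S E) (m : {m : ℤ // m ≤ n}) => proc F G m.1 ω) ⁻¹' D =
      (fun (ω : Om S E) (i : ℤ) => proc F G (i + n) ω) ⁻¹' D' := by
    ext ω
    simp only [Set.mem_preimage, hD', sub_add_cancel]
  have hmn : Measurable (fun (ω : Om S E) (i : ℤ) => proc F G (i + n) ω) := by
    rw [measurable_pi_iff]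
    intro i
    exact measurable_proc F G hF hG (i + n)
  have hsm : MeasurableSet ((fun (ω : Om S E) (i : ℤ) => proc F G (i + n) ω) ⁻¹' D') :=
    MeasurableSet.preimage hD'm hmn
  have hDm : Measurable (D'.indicator (fun _ => (1 : ENNReal))) := measurable_const.indicator hD'm
  have hst := stat_all π ν κ κ' F G hF hFκ hG hGκ hrev n
  have hm0 : Measurable (fun (ω : Om S E) (i : ℤ) => proc F G i ω) := measurable_traj F G hF hG
  have hres : Measurable (fun z : ℤ → S => fun k : ℕ => z (k : ℤ)) := by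
    rw [measurable_pi_iff]
    intro k
    exact measurable_pi_apply _
  have hA : Measurable (fun z : ℤ → S => D'.indicator (fun _ => (1 : ENNReal)) z *
      Φ (fun k : ℕ => z (k : ℤ))) :=
    hDm.mul (hΦ.comp hres)
  have hB : Measurable (fun z : ℤ → S =>
      D'.indicator (fun _ => (1 : ENNReal)) z * Ex F ν Φ (z 0)) :=
    hDm.mul ((measurable_Ex F hF ν Φ hΦ).comp (measurable_pi_apply 0))
  have h0 := markov_zero_fun π ν F G hF hG D' hD'm hD'0 Φ hΦ
  have key : ∫⁻ ω, D'.indicator (fun _ => (1 : ENNReal)) (fun i : ℤ => proc F G (i + n) ω) *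
      Φ (fun k : ℕ => proc F G ((k : ℤ) + n) ω) ∂(omLaw π ν) =
      ∫⁻ ω, D'.indicator (fun _ => (1 : ENNReal)) (fun i : ℤ => proc F G (i + n) ω) *
      Ex F ν Φ (proc F G (0 + n) ω) ∂(omLaw π ν) := by
    calc ∫⁻ ω, D'.indicator (fun _ => (1 : ENNReal)) (fun i : ℤ => proc F G (i + n) ω) *
        Φ (fun k : ℕ => proc F G ((k : ℤ) + n) ω) ∂(omLaw π ν)
        = ∫⁻ z, D'.indicator (fun _ => (1 : ENNReal)) z * Φ (fun k : ℕ => z (k : ℤ))
            ∂((omLaw π ν).map (fun ω (i : ℤ) => proc F G (i + n) ω)) := by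
          rw [lintegral_map hA hmn]
      _ = ∫⁻ z, D'.indicator (fun _ => (1 : ENNReal)) z * Φ (fun k : ℕ => z (k : ℤ))
            ∂((omLaw π ν).map (fun ω (i : ℤ) => proc F G i ω)) := by rw [hst]
      _ = ∫⁻ ω, D'.indicator (fun _ => (1 : ENNReal)) (traj F G ω) *
            Φ (fun k : ℕ => traj F G ω (k : ℤ)) ∂(omLaw π ν) := by
          rw [lintegral_map hA hm0]; rfl
      _ = ∫⁻ ω, D'.indicator (fun _ => (1 : ENNReal)) (traj F G ω) *
            Ex F ν Φ (traj F G ω 0) ∂(omLaw π ν) := h0
      _ = ∫⁻ z, D'.indicator (fun _ => (1 : ENNReal)) z * Ex F ν Φ (z 0)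
            ∂((omLaw π ν).map (fun ω (i : ℤ) => proc F G i ω)) := by
          rw [lintegral_map hB hm0]; rfl
      _ = ∫⁻ z, D'.indicator (fun _ => (1 : ENNReal)) z * Ex F ν Φ (z 0)
            ∂((omLaw π ν).map (fun ω (i : ℤ) => proc F G (i + n) ω)) := by rw [hst]
      _ = _ := by
          rw [lintegral_map hB hmn]
  rw [hpre, ← lintegral_indicator hsm, ← lintegral_indicator hsm]
  have e : ∀ (g : Om S E → ENNReal),
      (fun ω => ((fun (ω : Om S E) (i : ℤ) => proc F G (i + n) ω) ⁻¹' D').indicator g ω) =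
      fun ω => D'.indicator (fun _ => (1 : ENNReal)) (fun i : ℤ => proc F G (i + n) ω) * g ω := by
    intro g
    funext ω
    by_cases hω : (fun i : ℤ => proc F G (i + n) ω) ∈ D'
    · rw [Set.indicator_of_mem hω, Set.indicator_of_mem (by exact hω), one_mul]
    · rw [Set.indicator_of_notMem hω, Set.indicator_of_notMem (by exact hω), zero_mul]
  rw [e, e]
  rw [zero_add] at key
  rw [← key]
  refine lintegral_congr fun ω => ?_
  have e3 : (fun k : ℕ => proc F G (n + k) ω) = fun k : ℕ => proc F G ((k : ℤ) + n) ω := by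
    funext k
    rw [add_comm]
  rw [e3]

/-- The Markov property for all events of the future. -/
lemma markov_condExp_full (π : Measure S) [IsProbabilityMeasure π] (ν : Measure E)
    [IsProbabilityMeasure ν]
    (κ κ' : Kernel S S) [IsMarkovKernel κ] [IsMarkovKernel κ'] (F G : S → E → S)
    (hF : Measurable (Function.uncurry F)) (hFκ : ∀ a, ν.map (F a) = κ a)
    (hG : Measurable (Function.uncurry G)) (hGκ : ∀ a, ν.map (G a) = κ' a)
    (hrev : (π ⊗ₘ κ).map Prod.swap = π ⊗ₘ κ') (n : ℤ) (B : Set (Om S E))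
    (hB : MeasurableSet[⨆ (m : ℤ) (_ : n ≤ m),
      MeasurableSpace.comap (proc F G m) inferInstance] B) :
    condExp (⨆ (m : ℤ) (_ : m ≤ n), MeasurableSpace.comap (proc F G m) inferInstance)
      (omLaw π ν) (B.indicator (fun _ => (1 : ℝ)))
    =ᵐ[omLaw π ν] condExp (MeasurableSpace.comap (proc F G n) inferInstance) (omLaw π ν)
      (B.indicator (fun _ => (1 : ℝ))) := by
  have hle : (⨆ (m : ℤ) (_ : m ≤ n), MeasurableSpace.comap (proc (E := E) F G m) inferInstance)
      ≤ Prod.instMeasurableSpace := by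
    refine iSup₂_le fun i _ => ?_
    exact (measurable_proc F G hF hG i).comap_le
  have hleF : (⨆ (m : ℤ) (_ : n ≤ m), MeasurableSpace.comap (proc (E := E) F G m) inferInstance)
      ≤ Prod.instMeasurableSpace := by
    refine iSup₂_le fun i _ => ?_
    exact (measurable_proc F G hF hG i).comap_le
  have hle' : MeasurableSpace.comap (proc (E := E) F G n) inferInstance ≤
      (⨆ (m : ℤ) (_ : m ≤ n), MeasurableSpace.comap (proc (E := E) F G m) inferInstance) :=
    le_iSup₂_of_le n le_rfl le_rfl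
  have hBm : MeasurableSet B := hleF B hB
  rw [future_eq_comap] at hB
  obtain ⟨V, hV, hVB⟩ := hB
  set Φ : (ℕ → S) → ENNReal := V.indicator (fun _ => (1 : ENNReal)) with hΦ
  have hΦm : Measurable Φ := measurable_const.indicator hV
  have hExm := measurable_Ex F hF ν Φ hΦm
  have hEx1 : ∀ x, Ex F ν Φ x ≤ 1 := by
    intro x
    unfold Ex
    calc ∫⁻ u, Φ (fwd F (x, u)) ∂(iid ν) ≤ ∫⁻ _, 1 ∂(iid ν) := by
          refine lintegral_mono fun u => ?_
          rw [hΦ]
          exact Set.indicator_le_self' (fun _ _ => zero_le_one) _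
      _ = 1 := by rw [lintegral_const, measure_univ, mul_one]
  have h4 : ∀ s, MeasurableSet[⨆ (m : ℤ) (_ : m ≤ n),
      MeasurableSpace.comap (proc (E := E) F G m) inferInstance] s →
      ∫⁻ ω in s, Ex F ν Φ (proc F G n ω) ∂(omLaw π ν) = (omLaw π ν) (s ∩ B) := by
    intro s hs
    have h1 := markov_fun π ν κ κ' F G hF hFκ hG hGκ hrev n s hs Φ hΦm
    rw [← h1]
    have h2 : (fun ω : Om S E => Φ (fun k : ℕ => proc F G (n + k) ω)) =
        B.indicator (fun _ => 1) := by
      rw [← hVB]
      rfl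
    rw [h2, lintegral_indicator hBm, Measure.restrict_restrict hBm, lintegral_const,
      Measure.restrict_apply MeasurableSet.univ, one_mul, Set.univ_inter, Set.inter_comm]
  have hmeas : Measurable[MeasurableSpace.comap (proc (E := E) F G n) inferInstance]
      (fun ω : Om S E => Ex F ν Φ (proc F G n ω)) := by
    have h1 : Measurable[MeasurableSpace.comap (proc (E := E) F G n) inferInstance]
        (proc (E := E) F G n) := by
      rw [measurable_iff_comap_le]
    exact hExm.comp h1
  have a1 := condExp_aux (omLaw π ν) hle B hBm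
    (fun ω : Om S E => Ex F ν Φ (proc F G n ω)) (hmeas.mono hle' le_rfl) (fun ω => hEx1 _) h4
  have a2 := condExp_aux (omLaw π ν) (hle'.trans hle) B hBm
    (fun ω : Om S E => Ex F ν Φ (proc F G n ω)) hmeas (fun ω => hEx1 _)
    (fun s hs => h4 s (hle' s hs))
  exact a1.symm.trans a2

/-- One-dependence: the past up to `n` and the future from `n + 2` are independent. -/
lemma indep_past_future (π : Measure S) [IsProbabilityMeasure π] (ν : Measure E)
    [IsProbabilityMeasure ν]
    (κ κ' : Kernel S S) [IsMarkovKernel κ] [IsMarkovKernel κ'] (F G : S → E → S)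
    (hF : Measurable (Function.uncurry F)) (hFκ : ∀ a, ν.map (F a) = κ a)
    (hG : Measurable (Function.uncurry G)) (hGκ : ∀ a, ν.map (G a) = κ' a)
    (hrev : (π ⊗ₘ κ).map Prod.swap = π ⊗ₘ κ')
    (h2 : ∀ (x : S) (B : Set S), MeasurableSet B → ∫⁻ y, κ y B ∂(κ x) = π B) (n : ℤ) :
    Indep (⨆ (m : ℤ) (_ : m ≤ n), MeasurableSpace.comap (proc (E := E) F G m) inferInstance)
      (⨆ (m : ℤ) (_ : n + 2 ≤ m), MeasurableSpace.comap (proc (E := E) F G m) inferInstance)
      (omLaw π ν) := by
  rw [Indep_iff]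
  intro s B hs hB
  have hleF : (⨆ (m : ℤ) (_ : n + 2 ≤ m),
      MeasurableSpace.comap (proc (E := E) F G m) inferInstance)
      ≤ Prod.instMeasurableSpace := by
    refine iSup₂_le fun i _ => ?_
    exact (measurable_proc F G hF hG i).comap_le
  have hBm : MeasurableSet B := hleF B hB
  rw [future_eq_comap] at hB
  obtain ⟨V, hV, hVB⟩ := hB
  set Φ : (ℕ → S) → ENNReal := V.indicator (fun _ => (1 : ENNReal)) with hΦ
  have hΦm : Measurable Φ := measurable_const.indicator hV
  have key : ∀ s, MeasurableSet[⨆ (m : ℤ) (_ : m ≤ n),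
      MeasurableSpace.comap (proc (E := E) F G m) inferInstance] s →
      (omLaw π ν) (s ∩ B) = (∫⁻ y, Ex F ν Φ y ∂π) * (omLaw π ν) s := by
    intro s hs
    have h1 := markov_fun π ν κ κ' F G hF hFκ hG hGκ hrev n s hs
      (fun z => Φ (shS (shS z))) (hΦm.comp (measurable_shS.comp measurable_shS))
    have h3 : ∀ ω : Om S E, Ex F ν (fun z => Φ (shS (shS z))) (proc F G n ω) =
        ∫⁻ y, Ex F ν Φ y ∂π := fun ω => Ex_shift_two π F hF ν κ hFκ h2 Φ hΦm _
    simp_rw [h3] at h1
    rw [lintegral_const, Measure.restrict_apply MeasurableSet.univ, Set.univ_inter] at h1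
    rw [← h1]
    have h4 : (fun ω : Om S E => Φ (shS (shS (fun k : ℕ => proc F G (n + k) ω)))) =
        B.indicator (fun _ => 1) := by
      rw [← hVB]
      funext ω
      have e : shS (shS (fun k : ℕ => proc F G (n + k) ω)) =
          fun k : ℕ => proc F G (n + 2 + k) ω := by
        funext k
        unfold shS
        congr 1
        push_cast
        ring
      rw [e]
      rfl
    rw [h4, lintegral_indicator hBm, Measure.restrict_restrict hBm, lintegral_const,
      Measure.restrict_apply MeasurableSet.univ, one_mul, Set.univ_inter, Set.inter_comm]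
  have hu := key Set.univ MeasurableSet.univ
  rw [Set.univ_inter, measure_univ, mul_one] at hu
  rw [key s hs, hu, mul_comm]

end

theorem exists_process_full {S : Type} [MeasurableSpace S] [StandardBorelSpace S] [Nonempty S]
    (π : Measure S) [IsProbabilityMeasure π] (κ κ' : Kernel S S) [IsMarkovKernel κ]
    [IsMarkovKernel κ'] (hrev : (π ⊗ₘ κ).map Prod.swap = π ⊗ₘ κ')
    (h2 : ∀ (x : S) (B : Set S), MeasurableSet B → ∫⁻ y, κ y B ∂(κ x) = π B)
    (C : Set (S × S)) (hC : MeasurableSet C) (hC0 : ∀ x, κ x {y | (x, y) ∈ C} = 0) :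
    ∃ (Ω : Type) (_ : MeasurableSpace Ω) (μ : Measure Ω) (X : ℤ → Ω → S),
      IsProbabilityMeasure μ ∧
      (∀ i, Measurable (X i)) ∧
      (∀ n : ℤ, μ.map (fun ω (i : ℤ) => X (i + n) ω) = μ.map (fun ω (i : ℤ) => X i ω)) ∧
      (∀ (n : ℤ) (B : Set Ω),
        MeasurableSet[⨆ (m : ℤ) (_ : n ≤ m), MeasurableSpace.comap (X m) inferInstance] B →
        condExp (⨆ (m : ℤ) (_ : m ≤ n), MeasurableSpace.comap (X m) inferInstance) μ
          (B.indicator (fun _ => (1 : ℝ)))
        =ᵐ[μ] condExp (MeasurableSpace.comap (X n) inferInstance) μ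
          (B.indicator (fun _ => (1 : ℝ)))) ∧
      (∀ n : ℤ, Indep (⨆ (m : ℤ) (_ : m ≤ n), MeasurableSpace.comap (X m) inferInstance)
        (⨆ (m : ℤ) (_ : n + 2 ≤ m), MeasurableSpace.comap (X m) inferInstance) μ) ∧
      ∀ᵐ ω ∂μ, ∀ i : ℤ, (X i ω, X (i + 1) ω) ∉ C := by
  obtain ⟨F, hF, hFκ⟩ := Kernel.exists_measurable_map_eq_unitInterval κ
  obtain ⟨G, hG, hGκ⟩ := Kernel.exists_measurable_map_eq_unitInterval κ'
  set ν : Measure unitInterval := volume with hν
  have hst := stat_all π ν κ κ' F G hF hFκ hG hGκ hrev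
  refine ⟨Om S unitInterval, inferInstance, omLaw π ν, proc F G, inferInstance,
    measurable_proc F G hF hG, hst, ?_, ?_, ?_⟩
  · intro n B hB
    exact markov_condExp_full π ν κ κ' F G hF hFκ hG hGκ hrev n B hB
  · intro n
    exact indep_past_future π ν κ κ' F G hF hFκ hG hGκ hrev h2 n
  · rw [ae_all_iff]
    intro i
    have hX : ∀ j : ℤ, Measurable (fun ω : Om S unitInterval => (proc F G j ω, proc F G (j + 1) ω)) :=
      fun j => (measurable_proc F G hF hG j).prodMk (measurable_proc F G hF hG (j + 1))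
    rw [ae_iff]
    simp only [not_not]
    have hset : ∀ j : ℤ, {ω : Om S unitInterval | (proc F G j ω, proc F G (j + 1) ω) ∈ C} =
        (fun ω : Om S unitInterval => (proc F G j ω, proc F G (j + 1) ω)) ⁻¹' C := fun j => rfl
    rw [hset]
    -- reduce to time zero by stationarity
    have hW : MeasurableSet ((fun z : ℤ → S => (z 0, z 1)) ⁻¹' C) :=
      ((measurable_pi_apply 0).prodMk (measurable_pi_apply 1)) hC
    have hmn : Measurable (fun (ω : Om S unitInterval) (j : ℤ) => proc F G (j + i) ω) := by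
      rw [measurable_pi_iff]
      intro j
      exact measurable_proc F G hF hG (j + i)
    have hm0 : Measurable (fun (ω : Om S unitInterval) (j : ℤ) => proc F G j ω) :=
      measurable_traj F G hF hG
    have hred : (omLaw π ν)
        ((fun ω : Om S unitInterval => (proc F G i ω, proc F G (i + 1) ω)) ⁻¹' C) =
        (omLaw π ν) ((fun ω : Om S unitInterval => (proc F G 0 ω, proc F G 1 ω)) ⁻¹' C) := by
      have h := congrArg (fun m : Measure (ℤ → S) => m ((fun z : ℤ → S => (z 0, z 1)) ⁻¹' C))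
        (hst i)
      rw [Measure.map_apply hmn hW, Measure.map_apply hm0 hW] at h
      have e1 : (fun (ω : Om S unitInterval) (j : ℤ) => proc F G (j + i) ω) ⁻¹'
          ((fun z : ℤ → S => (z 0, z 1)) ⁻¹' C) =
          (fun ω : Om S unitInterval => (proc F G i ω, proc F G (i + 1) ω)) ⁻¹' C := by
        ext ω
        simp only [Set.mem_preimage, zero_add]
        rw [add_comm 1 i]
      rw [e1] at h
      exact h
    rw [hred]
    have hX' : Measurable (fun ω : Om S unitInterval => (proc F G 0 ω, proc F G 1 ω)) :=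
      (measurable_proc F G hF hG 0).prodMk (measurable_proc F G hF hG 1)
    rw [← lintegral_indicator_one (hX' hC)]
    unfold omLaw
    have hI : Measurable (((fun ω : Om S unitInterval => (proc F G 0 ω, proc F G 1 ω)) ⁻¹' C).indicator
      (1 : Om S unitInterval → ENNReal)) := measurable_one.indicator (hX' hC)
    rw [lintegral_prod _ hI.aemeasurable]
    rw [lintegral_eq_zero_iff (Measurable.lintegral_prod_right' hI)]
    refine Filter.Eventually.of_forall fun p => ?_
    change ∫⁻ u, _ ∂(iid ν) = 0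
    have hx : Measurable (fun e : unitInterval => F p.1 e) :=
      hF.comp (measurable_const.prodMk measurable_id)
    have hCx : MeasurableSet {y | (p.1, y) ∈ C} := by
      exact (measurable_const.prodMk measurable_id) hC
    have e : ∀ u : ℕ → unitInterval,
        ((fun ω : Om S unitInterval => (proc F G 0 ω, proc F G 1 ω)) ⁻¹' C).indicator
        (1 : Om S unitInterval → ENNReal) (p, u) =
        ((fun e : unitInterval => F p.1 e) ⁻¹' {y | (p.1, y) ∈ C}).indicator 1 (u 0) := by
      intro u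
      rfl
    simp_rw [e]
    have hmp := (measurePreserving_eval_infinitePi (fun _ : ℕ => ν) 0).lintegral_comp
      (f := ((fun e : unitInterval => F p.1 e) ⁻¹' {y | (p.1, y) ∈ C}).indicator 1)
      (measurable_one.indicator (hx hCx))
    have : ∫⁻ u, ((fun e : unitInterval => F p.1 e) ⁻¹' {y | (p.1, y) ∈ C}).indicator
        (1 : unitInterval → ENNReal) (u 0) ∂(iid ν) = 0 := by
      refine hmp.trans ?_
      rw [lintegral_indicator_one (hx hCx), ← Measure.map_apply hx hCx, hFκ]
      exact hC0 p.1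
    exact this

end Pool.Agent.Lib.MP_65c995_pr
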