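import Mathlib
import Pool.Agent.Lib.MP_65c995_pr.Density

/-! The limiting density. -/

namespace Pool.Agent.Lib.MP_65c995_pr

open Finset MeasureTheory

lemma meas_dl_right (m : ℕ) (x : St) : Measurable (fun y => dl m x y) := by
  simp_rw [dl_fa m 0 x]
  exact (meas_prod (fa m x) _).const_mul _

lemma meas_dl_left (m : ℕ) (z : St) : Measurable (fun y => dl m y z) := by
  simp_rw [dl_fb m 0 _ z]
  exact (meas_prod (fb m z) _).const_mul _

lemma meas_dl_joint (m : ℕ) : Measurable (fun p : St × St => dl m p.1 p.2) := by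
  unfold dl
  have hc : ∀ (f : Col → Let → Col → Let → ℝ) (t : ℕ),
      Measurable (fun p : St × St => f p.1.1 (p.1.2 t) p.2.1 (p.2.2 t)) := by
    intro f t
    have h1 : Measurable (fun p : St × St =>
        (((p.1.1, p.1.2 t), (p.2.1, p.2.2 t)) : (Col × Let) × (Col × Let))) := by
      refine Measurable.prodMk (Measurable.prodMk ?_ ?_) (Measurable.prodMk ?_ ?_)
      · exact measurable_fst.comp measurable_fst
      · exact (measurable_pi_apply t).comp (measurable_snd.comp measurable_fst)
      · exact measurable_fst.comp measurable_snd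
      · exact (measurable_pi_apply t).comp (measurable_snd.comp measurable_snd)
    have h2 : Measurable (fun q : (Col × Let) × (Col × Let) => f q.1.1 q.1.2 q.2.1 q.2.2) :=
      Measurable.of_discrete
    exact h2.comp h1
  refine Measurable.const_mul ?_ _
  refine Measurable.mul ?_ (hc nu m)
  exact Finset.measurable_prod _ fun t _ => hc rho t

lemma integrable_dl_right (m : ℕ) (x : St) : Integrable (fun y => dl m x y) piS := by
  simp_rw [dl_fa m 0 x]
  exact (integrable_prod' (fa m x) _).const_mul _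

lemma integrable_dl_left (m : ℕ) (z : St) : Integrable (fun y => dl m y z) piS := by
  simp_rw [dl_fb m 0 _ z]
  exact (integrable_prod' (fb m z) _).const_mul _

lemma integrable_dl_dl (m m' : ℕ) (x z : St) :
    Integrable (fun y => dl m x y * dl m' y z) piS := by
  have h : ∀ y, dl m x y * dl m' y z = ((1 / 63 : ℝ) ^ (m + 1) * (1 / 63 : ℝ) ^ (m' + 1)) *
      ∏ t ∈ range (m + 1 + (m' + 1 + 0)), (fa m x y.1 t (y.2 t) * fb m' z y.1 t (y.2 t)) := by
    intro y
    rw [dl_fa m (m' + 1 + 0), dl_fb m' (m + 1), Finset.prod_mul_distrib]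
    have : m' + 1 + (m + 1) = m + 1 + (m' + 1 + 0) := by ring
    rw [this]
    ring
  simp_rw [h]
  exact (integrable_prod' (fun c t b => fa m x c t b * fb m' z c t b) _).const_mul _

/-- Truncated density. -/
noncomputable def Tn (n : ℕ) (x y : St) : ℝ := 1 + ∑ m ∈ range n, dl m x y

lemma integral_Tn_right (n : ℕ) (x : St) : ∫ y, Tn n x y ∂piS = 1 := by
  unfold Tn
  rw [integral_add (integrable_const 1) (integrable_finsetSum _ fun m _ =>
    integrable_dl_right m x), integral_finsetSum _ fun m _ => integrable_dl_right m x]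
  simp_rw [integral_dl]
  simp

lemma integral_Tn_left (n : ℕ) (z : St) : ∫ y, Tn n y z ∂piS = 1 := by
  unfold Tn
  rw [integral_add (integrable_const 1) (integrable_finsetSum _ fun m _ =>
    integrable_dl_left m z), integral_finsetSum _ fun m _ => integrable_dl_left m z]
  simp_rw [integral_dl']
  simp

lemma integral_Tn_Tn (n : ℕ) (x z : St) : ∫ y, Tn n x y * Tn n y z ∂piS = 1 := by
  have h : ∀ y, Tn n x y * Tn n y z = ((1 + ∑ m ∈ range n, dl m x y) +
      ∑ m ∈ range n, dl m y z) + ∑ m ∈ range n, ∑ m' ∈ range n, dl m x y * dl m' y z := by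
    intro y
    unfold Tn
    rw [← Finset.sum_mul_sum]
    ring
  simp_rw [h]
  have i1 : Integrable (fun y => ∑ m ∈ range n, dl m x y) piS :=
    integrable_finsetSum _ fun m _ => integrable_dl_right m x
  have i2 : Integrable (fun y => ∑ m ∈ range n, dl m y z) piS :=
    integrable_finsetSum _ fun m _ => integrable_dl_left m z
  have i3 : Integrable (fun y => ∑ m ∈ range n, ∑ m' ∈ range n, dl m x y * dl m' y z) piS :=
    integrable_finsetSum _ fun m _ => integrable_finsetSum _ fun m' _ =>
      integrable_dl_dl m m' x z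
  have i0 : Integrable (fun y => 1 + ∑ m ∈ range n, dl m x y) piS :=
    (integrable_const 1).add i1
  have i02 : Integrable (fun y => (1 + ∑ m ∈ range n, dl m x y) +
      ∑ m ∈ range n, dl m y z) piS := i0.add i2
  rw [integral_add i02 i3, integral_add i0 i2, integral_add (integrable_const 1) i1,
    integral_finsetSum _ fun m _ => integrable_dl_right m x,
    integral_finsetSum _ fun m _ => integrable_dl_left m z,
    integral_finsetSum _ fun m _ => integrable_finsetSum _ fun m' _ =>
      integrable_dl_dl m m' x z]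
  have : ∀ m ∈ range n, ∫ y, ∑ m' ∈ range n, dl m x y * dl m' y z ∂piS = 0 := by
    intro m _
    rw [integral_finsetSum _ fun m' _ => integrable_dl_dl m m' x z]
    exact Finset.sum_eq_zero fun m' _ => integral_dl_dl m m' x z
  rw [Finset.sum_congr rfl this]
  simp_rw [integral_dl, integral_dl']
  simp

/-- On equal colours the truncated density telescopes. -/
lemma Tn_same (n : ℕ) (x y : St) (h : x.1 = y.1) :
    Tn n x y = ∏ t ∈ range n, (rho x.1 (x.2 t) y.1 (y.2 t) / 63) := by
  induction n with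
  | zero => simp [Tn]
  | succ n ih =>
    have h1 : Tn (n + 1) x y = Tn n x y + dl n x y := by
      unfold Tn
      rw [Finset.sum_range_succ]; ring
    rw [h1, ih, Finset.prod_range_succ]
    unfold dl
    rw [← h, nu_self, Finset.prod_div_distrib, Finset.prod_const, Finset.card_range,
      one_div_pow, pow_succ]
    field_simp
    ring

lemma abs_dl_le (m : ℕ) (x y : St) (h : x.1 ≠ y.1) :
    |dl m x y| ≤ (34 / 63 : ℝ) * (17 / 63 : ℝ) ^ m := by
  unfold dl
  rw [abs_mul, abs_mul, Finset.abs_prod]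
  have h1 : ∏ t ∈ range m, |rho x.1 (x.2 t) y.1 (y.2 t)| ≤ 17 ^ m := by
    calc ∏ t ∈ range m, |rho x.1 (x.2 t) y.1 (y.2 t)| ≤ ∏ t ∈ range m, (17 : ℝ) :=
          Finset.prod_le_prod (fun t _ => abs_nonneg _) fun t _ => rho_abs_le _ _ h _ _
      _ = 17 ^ m := by simp
  have h2 := nu_abs_le x.1 y.1 h (x.2 m) (y.2 m)
  have h3 : |(1 / 63 : ℝ) ^ (m + 1)| = (1 / 63 : ℝ) ^ (m + 1) := abs_of_pos (by positivity)
  rw [h3]
  have h4 : (34 / 63 : ℝ) * (17 / 63 : ℝ) ^ m = (1 / 63 : ℝ) ^ (m + 1) * (17 ^ m * 34) := by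
    rw [div_pow, div_pow, pow_succ, one_pow]
    field_simp
    ring
  rw [h4]
  gcongr

lemma summable_geo : Summable (fun m : ℕ => (34 / 63 : ℝ) * (17 / 63 : ℝ) ^ m) :=
  (summable_geometric_of_lt_one (by norm_num) (by norm_num)).mul_left _

lemma tsum_geo : ∑' m : ℕ, (34 / 63 : ℝ) * (17 / 63 : ℝ) ^ m = 34 / 46 := by
  rw [tsum_mul_left, tsum_geometric_of_lt_one (by norm_num) (by norm_num)]
  norm_num

lemma summable_dl (x y : St) (h : x.1 ≠ y.1) : Summable (fun m => dl m x y) :=
  Summable.of_norm_bounded summable_geo fun m => by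
    rw [Real.norm_eq_abs]; exact abs_dl_le m x y h

/-- The limiting density: zero on equal colours. -/
noncomputable def TT (x y : St) : ℝ :=
  if x.1 = y.1 then 0 else 1 + ∑' m, dl m x y

lemma abs_sum_dl_le (n : ℕ) (x y : St) (h : x.1 ≠ y.1) :
    |∑ m ∈ range n, dl m x y| ≤ 34 / 46 := by
  refine (Finset.abs_sum_le_sum_abs _ _).trans ?_
  refine (Finset.sum_le_sum fun m _ => abs_dl_le m x y h).trans ?_
  rw [← tsum_geo]
  exact summable_geo.sum_le_tsum _ fun m _ => by positivity

lemma abs_Tn_le (n : ℕ) (x y : St) : |Tn n x y| ≤ 2 := by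
  by_cases h : x.1 = y.1
  · rw [Tn_same n x y h, Finset.abs_prod]
    refine (Finset.prod_le_one (fun t _ => abs_nonneg _) fun t _ => ?_).trans (by norm_num)
    rw [abs_div]
    have := rho_abs_le' x.1 y.1 (x.2 t) (y.2 t)
    rw [div_le_one (by norm_num)]
    rw [show |(63 : ℝ)| = 63 from abs_of_pos (by norm_num)]
    exact this
  · unfold Tn
    have := abs_sum_dl_le n x y h
    rw [abs_le] at this ⊢
    constructor <;> linarith

lemma abs_tsum_dl_le (x y : St) (h : x.1 ≠ y.1) : |∑' m, dl m x y| ≤ 34 / 46 := by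
  have h1 : Filter.Tendsto (fun n => |∑ m ∈ range n, dl m x y|) Filter.atTop
      (nhds |∑' m, dl m x y|) := ((summable_dl x y h).hasSum.tendsto_sum_nat).abs
  exact le_of_tendsto h1 (Filter.Eventually.of_forall fun n => abs_sum_dl_le n x y h)

lemma TT_nonneg (x y : St) : 0 ≤ TT x y := by
  unfold TT
  split_ifs with h
  · exact le_rfl
  · have := abs_tsum_dl_le x y h
    rw [abs_le] at this
    linarith

lemma TT_le (x y : St) : TT x y ≤ 2 := by
  unfold TT
  split_ifs with h
  · norm_num
  · have := abs_tsum_dl_le x y h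
    rw [abs_le] at this
    linarith

lemma abs_TT_le (x y : St) : |TT x y| ≤ 2 := by
  rw [abs_of_nonneg (TT_nonneg x y)]; exact TT_le x y

lemma meas_Tn_joint (n : ℕ) : Measurable (fun p : St × St => Tn n p.1 p.2) := by
  unfold Tn
  exact measurable_const.add (Finset.measurable_sum _ fun m _ => meas_dl_joint m)

lemma measSet_same : MeasurableSet {p : St × St | p.1.1 = p.2.1} := by
  have h1 : Measurable (fun p : St × St => p.1.1) := measurable_fst.comp measurable_fst
  have h2 : Measurable (fun p : St × St => p.2.1) := measurable_fst.comp measurable_snd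
  exact measurableSet_eq_fun h1 h2

lemma meas_TT_joint : Measurable (fun p : St × St => TT p.1 p.2) := by
  have h : ∀ n : ℕ, Measurable (fun p : St × St =>
      if p.1.1 = p.2.1 then (0 : ℝ) else Tn n p.1 p.2) :=
    fun n => Measurable.ite measSet_same measurable_const (meas_Tn_joint n)
  refine measurable_of_tendsto_metrizable h ?_
  rw [tendsto_pi_nhds]
  intro p
  by_cases hp : p.1.1 = p.2.1
  · simp only [TT, if_pos hp]
    exact tendsto_const_nhds
  · simp only [TT, if_neg hp]
    unfold Tn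
    exact (summable_dl p.1 p.2 hp).hasSum.tendsto_sum_nat.const_add 1

/-- The error bound. -/
noncomputable def err (n : ℕ) : ℝ := (34 / 46 : ℝ) * (17 / 63 : ℝ) ^ n + (8 / 63 : ℝ) ^ n

lemma err_tendsto : Filter.Tendsto err Filter.atTop (nhds 0) := by
  unfold err
  have h1 : Filter.Tendsto (fun n : ℕ => (17 / 63 : ℝ) ^ n) Filter.atTop (nhds 0) :=
    tendsto_pow_atTop_nhds_zero_of_lt_one (by norm_num) (by norm_num)
  have h2 : Filter.Tendsto (fun n : ℕ => (8 / 63 : ℝ) ^ n) Filter.atTop (nhds 0) :=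
    tendsto_pow_atTop_nhds_zero_of_lt_one (by norm_num) (by norm_num)
  have := (h1.const_mul (34 / 46 : ℝ)).add h2
  simpa using this

lemma abs_TT_sub_Tn_ne (n : ℕ) (x y : St) (h : x.1 ≠ y.1) :
    |TT x y - Tn n x y| ≤ (34 / 46 : ℝ) * (17 / 63 : ℝ) ^ n := by
  have e : TT x y - Tn n x y = ∑' m, dl (m + n) x y := by
    unfold TT Tn
    rw [if_neg h, ← (summable_dl x y h).sum_add_tsum_nat_add n]
    ring
  rw [e]
  have hb : ∀ m, ‖dl (m + n) x y‖ ≤ (17 / 63 : ℝ) ^ n * ((34 / 63 : ℝ) * (17 / 63 : ℝ) ^ m) := by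
    intro m
    rw [Real.norm_eq_abs]
    refine (abs_dl_le (m + n) x y h).trans (le_of_eq ?_)
    rw [pow_add]; ring
  have hs : Summable (fun m : ℕ => (17 / 63 : ℝ) ^ n * ((34 / 63 : ℝ) * (17 / 63 : ℝ) ^ m)) :=
    summable_geo.mul_left _
  have := tsum_of_norm_bounded hs.hasSum hb
  rw [Real.norm_eq_abs] at this
  refine this.trans (le_of_eq ?_)
  rw [tsum_mul_left, tsum_geo]
  ring

lemma abs_TT_sub_Tn (n : ℕ) (x y : St) :
    |TT x y - Tn n x y| ≤ (34 / 46 : ℝ) * (17 / 63 : ℝ) ^ n +
      ∏ t ∈ range n, (|rho x.1 (x.2 t) y.1 (y.2 t)| / 63) := by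
  by_cases h : x.1 = y.1
  · rw [Tn_same n x y h]
    unfold TT
    rw [if_pos h, zero_sub, abs_neg, Finset.abs_prod]
    have : ∀ t, |rho x.1 (x.2 t) y.1 (y.2 t) / 63| = |rho x.1 (x.2 t) y.1 (y.2 t)| / 63 := by
      intro t
      rw [abs_div, show |(63 : ℝ)| = 63 from abs_of_pos (by norm_num)]
    simp_rw [this]
    have h0 : 0 ≤ (34 / 46 : ℝ) * (17 / 63 : ℝ) ^ n := by positivity
    linarith
  · refine (abs_TT_sub_Tn_ne n x y h).trans ?_
    have h0 : 0 ≤ ∏ t ∈ range n, (|rho x.1 (x.2 t) y.1 (y.2 t)| / 63) :=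
      Finset.prod_nonneg fun t _ => by positivity
    linarith

lemma meas_TT_right (x : St) : Measurable (fun y => TT x y) :=
  meas_TT_joint.comp (measurable_const.prodMk measurable_id)

lemma meas_TT_left (z : St) : Measurable (fun y => TT y z) :=
  meas_TT_joint.comp (measurable_id.prodMk measurable_const)

lemma meas_Tn_right (n : ℕ) (x : St) : Measurable (fun y => Tn n x y) := by
  unfold Tn
  exact measurable_const.add (Finset.measurable_sum _ fun m _ => meas_dl_right m x)

lemma meas_Tn_left (n : ℕ) (z : St) : Measurable (fun y => Tn n y z) := by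
  unfold Tn
  exact measurable_const.add (Finset.measurable_sum _ fun m _ => meas_dl_left m z)

lemma integrable_of_abs_le {f : St → ℝ} (hf : Measurable f) (M : ℝ) (h : ∀ y, |f y| ≤ M) :
    Integrable f piS :=
  Integrable.of_bound hf.aestronglyMeasurable M (Filter.Eventually.of_forall fun y => by
    rw [Real.norm_eq_abs]; exact h y)

lemma integral_err_right (n : ℕ) (x : St) : ∫ y, |TT x y - Tn n x y| ∂piS ≤ err n := by
  have hI : Integrable (fun y : St => ∏ t ∈ range n, (|rho x.1 (x.2 t) y.1 (y.2 t)| / 63)) piS :=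
    integrable_prod' (fun c t b => |rho x.1 (x.2 t) c b| / 63) n
  have h1 : ∫ y, |TT x y - Tn n x y| ∂piS ≤ ∫ y, ((34 / 46 : ℝ) * (17 / 63 : ℝ) ^ n +
      ∏ t ∈ range n, (|rho x.1 (x.2 t) y.1 (y.2 t)| / 63)) ∂piS := by
    refine integral_mono ?_ ((integrable_const _).add hI) fun y => abs_TT_sub_Tn n x y
    refine integrable_of_abs_le ((meas_TT_right x).sub (meas_Tn_right n x)).abs 4 fun y => ?_
    rw [abs_abs]
    have a1 := abs_TT_le x y
    have a2 := abs_Tn_le n x y
    rw [abs_le] at a1 a2 ⊢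
    constructor <;> linarith
  refine h1.trans ?_
  rw [integral_add (integrable_const _) hI, integral_const, probReal_univ, one_smul]
  unfold err
  gcongr
  rw [integral_prod_letters (fun c t b => |rho x.1 (x.2 t) c b| / 63)]
  have h2 : ∀ c : Col, ∏ t ∈ range n, ((64 : ℝ)⁻¹ * ∑ b, |rho x.1 (x.2 t) c b| / 63) ≤
      (8 / 63 : ℝ) ^ n := by
    intro c
    calc ∏ t ∈ range n, ((64 : ℝ)⁻¹ * ∑ b, |rho x.1 (x.2 t) c b| / 63)
        ≤ ∏ t ∈ range n, (8 / 63 : ℝ) := by
          refine Finset.prod_le_prod (fun t _ => by positivity) fun t _ => ?_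
          rw [← Finset.sum_div]
          have := rho_abs_mean x.1 c (x.2 t)
          linarith
      _ = (8 / 63 : ℝ) ^ n := by rw [Finset.prod_const, Finset.card_range]
  calc (128 : ℝ)⁻¹ * ∑ c : Col, ∏ t ∈ range n, ((64 : ℝ)⁻¹ * ∑ b, |rho x.1 (x.2 t) c b| / 63)
      ≤ (128 : ℝ)⁻¹ * ∑ _c : Col, (8 / 63 : ℝ) ^ n := by
        gcongr with c _
        exact h2 c
    _ = (8 / 63 : ℝ) ^ n := by simp

lemma rho_comm (c : Col) (a : Let) (c' : Col) (b : Let) : rho c a c' b = rho c' b c a :=
  dt_comm _ _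

lemma integral_err_left (n : ℕ) (z : St) : ∫ y, |TT y z - Tn n y z| ∂piS ≤ err n := by
  have hI : Integrable (fun y : St => ∏ t ∈ range n, (|rho y.1 (y.2 t) z.1 (z.2 t)| / 63)) piS :=
    integrable_prod' (fun c t b => |rho c b z.1 (z.2 t)| / 63) n
  have h1 : ∫ y, |TT y z - Tn n y z| ∂piS ≤ ∫ y, ((34 / 46 : ℝ) * (17 / 63 : ℝ) ^ n +
      ∏ t ∈ range n, (|rho y.1 (y.2 t) z.1 (z.2 t)| / 63)) ∂piS := by
    refine integral_mono ?_ ((integrable_const _).add hI) fun y => abs_TT_sub_Tn n y z
    refine integrable_of_abs_le ((meas_TT_left z).sub (meas_Tn_left n z)).abs 4 fun y => ?_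
    rw [abs_abs]
    have a1 := abs_TT_le y z
    have a2 := abs_Tn_le n y z
    rw [abs_le] at a1 a2 ⊢
    constructor <;> linarith
  refine h1.trans ?_
  rw [integral_add (integrable_const _) hI, integral_const, probReal_univ, one_smul]
  unfold err
  gcongr
  rw [integral_prod_letters (fun c t b => |rho c b z.1 (z.2 t)| / 63)]
  have h2 : ∀ c : Col, ∏ t ∈ range n, ((64 : ℝ)⁻¹ * ∑ b, |rho c b z.1 (z.2 t)| / 63) ≤
      (8 / 63 : ℝ) ^ n := by
    intro c
    calc ∏ t ∈ range n, ((64 : ℝ)⁻¹ * ∑ b, |rho c b z.1 (z.2 t)| / 63)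
        ≤ ∏ t ∈ range n, (8 / 63 : ℝ) := by
          refine Finset.prod_le_prod (fun t _ => by positivity) fun t _ => ?_
          rw [← Finset.sum_div]
          have := rho_abs_mean z.1 c (z.2 t)
          simp_rw [rho_comm c _ z.1 (z.2 t)]
          linarith
      _ = (8 / 63 : ℝ) ^ n := by rw [Finset.prod_const, Finset.card_range]
  calc (128 : ℝ)⁻¹ * ∑ c : Col, ∏ t ∈ range n, ((64 : ℝ)⁻¹ * ∑ b, |rho c b z.1 (z.2 t)| / 63)
      ≤ (128 : ℝ)⁻¹ * ∑ _c : Col, (8 / 63 : ℝ) ^ n := by
        gcongr with c _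
        exact h2 c
    _ = (8 / 63 : ℝ) ^ n := by simp

lemma eq_of_err {a b : ℝ} (K : ℝ) (h : ∀ n, |a - b| ≤ K * err n) : a = b := by
  have h1 : Filter.Tendsto (fun n => K * err n) Filter.atTop (nhds 0) := by
    simpa using err_tendsto.const_mul K
  have h2 : |a - b| ≤ 0 := ge_of_tendsto h1 (Filter.Eventually.of_forall h)
  have h3 : a - b = 0 := abs_eq_zero.mp (le_antisymm h2 (abs_nonneg _))
  linarith

lemma integrable_TT_right (x : St) : Integrable (fun y => TT x y) piS :=
  integrable_of_abs_le (meas_TT_right x) 2 fun y => abs_TT_le x y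

lemma integrable_TT_left (z : St) : Integrable (fun y => TT y z) piS :=
  integrable_of_abs_le (meas_TT_left z) 2 fun y => abs_TT_le y z

lemma integrable_Tn_right (n : ℕ) (x : St) : Integrable (fun y => Tn n x y) piS :=
  integrable_of_abs_le (meas_Tn_right n x) 2 fun y => abs_Tn_le n x y

lemma integrable_Tn_left (n : ℕ) (z : St) : Integrable (fun y => Tn n y z) piS :=
  integrable_of_abs_le (meas_Tn_left n z) 2 fun y => abs_Tn_le n y z

lemma integral_TT_right (x : St) : ∫ y, TT x y ∂piS = 1 := by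
  refine eq_of_err 1 fun n => ?_
  rw [one_mul, ← integral_Tn_right n x,
    ← integral_sub (integrable_TT_right x) (integrable_Tn_right n x)]
  exact (abs_integral_le_integral_abs).trans (integral_err_right n x)

lemma integral_TT_left (z : St) : ∫ y, TT y z ∂piS = 1 := by
  refine eq_of_err 1 fun n => ?_
  rw [one_mul, ← integral_Tn_left n z,
    ← integral_sub (integrable_TT_left z) (integrable_Tn_left n z)]
  exact (abs_integral_le_integral_abs).trans (integral_err_left n z)

lemma integral_TT_TT (x z : St) : ∫ y, TT x y * TT y z ∂piS = 1 := by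
  refine eq_of_err 4 fun n => ?_
  have j1 : Integrable (fun y => TT x y * TT y z) piS :=
    integrable_of_abs_le ((meas_TT_right x).mul (meas_TT_left z)) 4 fun y => by
      rw [abs_mul]
      have a1 := abs_TT_le x y
      have a2 := abs_TT_le y z
      nlinarith [abs_nonneg (TT x y), abs_nonneg (TT y z)]
  have j2 : Integrable (fun y => Tn n x y * Tn n y z) piS :=
    integrable_of_abs_le ((meas_Tn_right n x).mul (meas_Tn_left n z)) 4 fun y => by
      rw [abs_mul]
      have a1 := abs_Tn_le n x y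
      have a2 := abs_Tn_le n y z
      nlinarith [abs_nonneg (Tn n x y), abs_nonneg (Tn n y z)]
  have j3 : Integrable (fun y => |TT x y - Tn n x y|) piS :=
    ((integrable_TT_right x).sub (integrable_Tn_right n x)).abs
  have j4 : Integrable (fun y => |TT y z - Tn n y z|) piS :=
    ((integrable_TT_left z).sub (integrable_Tn_left n z)).abs
  rw [← integral_Tn_Tn n x z, ← integral_sub j1 j2]
  refine (abs_integral_le_integral_abs).trans ?_
  have h1 : ∫ y, |TT x y * TT y z - Tn n x y * Tn n y z| ∂piS ≤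
      ∫ y, (2 * |TT x y - Tn n x y| + 2 * |TT y z - Tn n y z|) ∂piS := by
    refine integral_mono (j1.sub j2).abs ((j3.const_mul 2).add (j4.const_mul 2)) fun y => ?_
    have e : TT x y * TT y z - Tn n x y * Tn n y z =
        (TT x y - Tn n x y) * TT y z + Tn n x y * (TT y z - Tn n y z) := by ring
    simp only
    rw [e]
    refine (abs_add_le _ _).trans ?_
    rw [abs_mul, abs_mul]
    have a1 := abs_TT_le y z
    have a2 := abs_Tn_le n x y
    have b1 := abs_nonneg (TT x y - Tn n x y)
    have b2 := abs_nonneg (TT y z - Tn n y z)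
    nlinarith
  refine h1.trans ?_
  rw [integral_add (j3.const_mul 2) (j4.const_mul 2), integral_const_mul, integral_const_mul]
  have := integral_err_right n x
  have := integral_err_left n z
  linarith

end Pool.Agent.Lib.MP_65c995_pr
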