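import Mathlib
import Pool.Agent.Lib.MP_65c995_pr.Limit
import Pool.Agent.Lib.MP_65c995_pr.Process

/-! The Markov kernels given by the density. -/

namespace Pool.Agent.Lib.MP_65c995_pr

open Finset MeasureTheory ProbabilityTheory

/-- Nonnegative extended real version of the density. -/
noncomputable def TE (x y : St) : ENNReal := ENNReal.ofReal (TT x y)

lemma meas_TE_joint : Measurable (Function.uncurry TE) :=
  meas_TT_joint.ennreal_ofReal

lemma meas_TE_joint' : Measurable (Function.uncurry fun x y => TE y x) :=
  (meas_TT_joint.comp measurable_swap).ennreal_ofReal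

lemma meas_TE_right (x : St) : Measurable (TE x) := (meas_TT_right x).ennreal_ofReal

lemma meas_TE_left (z : St) : Measurable (fun y => TE y z) := (meas_TT_left z).ennreal_ofReal

lemma lintegral_TE_right (x : St) : ∫⁻ y, TE x y ∂piS = 1 := by
  unfold TE
  rw [← ofReal_integral_eq_lintegral_ofReal (integrable_TT_right x)
    (Filter.Eventually.of_forall fun y => TT_nonneg x y), integral_TT_right, ENNReal.ofReal_one]

lemma lintegral_TE_left (z : St) : ∫⁻ y, TE y z ∂piS = 1 := by
  unfold TE
  rw [← ofReal_integral_eq_lintegral_ofReal (integrable_TT_left z)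
    (Filter.Eventually.of_forall fun y => TT_nonneg y z), integral_TT_left, ENNReal.ofReal_one]

lemma lintegral_TE_TE (x z : St) : ∫⁻ y, TE x y * TE y z ∂piS = 1 := by
  unfold TE
  have h : ∀ y, ENNReal.ofReal (TT x y) * ENNReal.ofReal (TT y z) =
      ENNReal.ofReal (TT x y * TT y z) := fun y => (ENNReal.ofReal_mul (TT_nonneg x y)).symm
  simp_rw [h]
  have j1 : Integrable (fun y => TT x y * TT y z) piS :=
    integrable_of_abs_le ((meas_TT_right x).mul (meas_TT_left z)) 4 fun y => by
      rw [abs_mul]
      have a1 := abs_TT_le x y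
      have a2 := abs_TT_le y z
      nlinarith [abs_nonneg (TT x y), abs_nonneg (TT y z)]
  rw [← ofReal_integral_eq_lintegral_ofReal j1
    (Filter.Eventually.of_forall fun y => mul_nonneg (TT_nonneg x y) (TT_nonneg y z)),
    integral_TT_TT, ENNReal.ofReal_one]

/-- Forward kernel. -/
noncomputable def kap : Kernel St St := Kernel.withDensity (Kernel.const St piS) TE

/-- Backward kernel. -/
noncomputable def kap' : Kernel St St :=
  Kernel.withDensity (Kernel.const St piS) (fun x y => TE y x)

lemma kap_apply (x : St) : kap x = piS.withDensity (TE x) := by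
  unfold kap
  rw [Kernel.withDensity_apply _ meas_TE_joint, Kernel.const_apply]

lemma kap'_apply (x : St) : kap' x = piS.withDensity (fun y => TE y x) := by
  unfold kap'
  rw [Kernel.withDensity_apply _ meas_TE_joint', Kernel.const_apply]

instance : IsMarkovKernel kap := ⟨fun x => ⟨by
  rw [kap_apply, withDensity_apply _ MeasurableSet.univ, Measure.restrict_univ,
    lintegral_TE_right]⟩⟩

instance : IsMarkovKernel kap' := ⟨fun x => ⟨by
  rw [kap'_apply, withDensity_apply _ MeasurableSet.univ, Measure.restrict_univ,
    lintegral_TE_left]⟩⟩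

lemma kap_rev : (piS ⊗ₘ kap).map Prod.swap = piS ⊗ₘ kap' := by
  refine Measure.ext_of_lintegral _ fun f hf => ?_
  have hfs : Measurable (fun p : St × St => f p.swap) := hf.comp measurable_swap
  rw [lintegral_map hf measurable_swap, Measure.lintegral_compProd hfs,
    Measure.lintegral_compProd hf]
  have h1 : ∀ x, ∫⁻ y, f (Prod.swap (x, y)) ∂(kap x) = ∫⁻ y, TE x y * f (y, x) ∂piS := by
    intro x
    have hg : Measurable (fun y : St => f (Prod.swap (x, y))) :=
      hfs.comp (measurable_const.prodMk measurable_id)
    rw [kap_apply, lintegral_withDensity_eq_lintegral_mul _ (meas_TE_right x) hg]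
    rfl
  have h2 : ∀ x, ∫⁻ y, f (x, y) ∂(kap' x) = ∫⁻ y, TE y x * f (x, y) ∂piS := by
    intro x
    have hg : Measurable (fun y : St => f (x, y)) :=
      hf.comp (measurable_const.prodMk measurable_id)
    rw [kap'_apply, lintegral_withDensity_eq_lintegral_mul _ (meas_TE_left x) hg]
    rfl
  simp_rw [h1, h2]
  rw [lintegral_lintegral_swap]
  exact (meas_TE_joint.mul (hf.comp measurable_swap)).aemeasurable

lemma kap_kap (x : St) (B : Set St) (hB : MeasurableSet B) :
    ∫⁻ y, kap y B ∂(kap x) = piS B := by
  have hm : Measurable (fun y => kap y B) := kap.measurable_coe hB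
  rw [kap_apply x, lintegral_withDensity_eq_lintegral_mul _ (meas_TE_right x) hm]
  have h1 : ∀ y, (TE x * fun y => kap y B) y = ∫⁻ z in B, TE x y * TE y z ∂piS := by
    intro y
    rw [Pi.mul_apply, kap_apply, withDensity_apply _ hB,
      lintegral_const_mul _ (meas_TE_right y)]
  simp_rw [h1]
  rw [lintegral_lintegral_swap]
  · simp_rw [lintegral_TE_TE]
    rw [lintegral_const, one_mul, Measure.restrict_apply MeasurableSet.univ, Set.univ_inter]
  · have : Measurable (Function.uncurry fun y z => TE x y * TE y z) := by
      exact ((meas_TE_right x).comp measurable_fst).mul meas_TE_joint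
    exact this.aemeasurable

lemma kap_same (x : St) : kap x {y | (x, y) ∈ {p : St × St | p.1.1 = p.2.1}} = 0 := by
  have hS : MeasurableSet {y : St | (x, y) ∈ {p : St × St | p.1.1 = p.2.1}} :=
    (measurable_const.prodMk measurable_id) measSet_same
  rw [kap_apply, withDensity_apply _ hS]
  rw [setLIntegral_congr_fun hS (g := fun _ => 0)]
  · simp
  · intro y hy
    have hy' : x.1 = y.1 := hy
    unfold TE TT
    simp [if_pos hy']

end Pool.Agent.Lib.MP_65c995_pr
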